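import Mathlib

/-!
Graph lemmas for the induced Plotkin-Rao-Smith argument: rooted connectivity, balls, region growing.
-/

open Finset

namespace Pool.Agent.Lib.MP_4aeae0_co

variable {V : Type} (G : SimpleGraph V)

/-- equal or adjacent -/
def Near (a b : V) : Prop := a = b ∨ G.Adj a b

variable {G}

lemma Near.symm {a b : V} (h : Near G a b) : Near G b a := h.imp Eq.symm G.adj_symm

lemma near_self (a : V) : Near G a a := Or.inl rfl

lemma Near.edist_le {a b : V} (h : Near G a b) : G.edist a b ≤ 1 := by
  rcases h with rfl | h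
  · simp
  · exact (SimpleGraph.edist_eq_one_iff_adj.2 h).le

variable (G) in
/-- `P` is connected, seen from the root `x` -/
def Conn (P : Set V) (x : V) : Prop :=
  x ∈ P ∧ ∀ v ∈ P, Relation.ReflTransGen (fun a b => a ∈ P ∧ b ∈ P ∧ G.Adj a b) x v

lemma reach_mono {P Q : Set V} (h : P ⊆ Q) {x v : V}
    (hv : Relation.ReflTransGen (fun a b => a ∈ P ∧ b ∈ P ∧ G.Adj a b) x v) :
    Relation.ReflTransGen (fun a b => a ∈ Q ∧ b ∈ Q ∧ G.Adj a b) x v :=
  Relation.ReflTransGen.mono (fun _ _ hab => ⟨h hab.1, h hab.2.1, hab.2.2⟩) _ _ hv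

lemma conn_singleton (x : V) : Conn G {x} x :=
  ⟨rfl, fun _ hv => hv ▸ Relation.ReflTransGen.refl⟩

lemma Conn.union {P Q : Set V} {x : V} (hP : Conn G P x) (hQ : Conn G Q x) :
    Conn G (P ∪ Q) x :=
  ⟨Or.inl hP.1, fun v hv => hv.elim
    (fun h => reach_mono Set.subset_union_left (hP.2 v h))
    (fun h => reach_mono Set.subset_union_right (hQ.2 v h))⟩

lemma Conn.extend {P Q : Set V} {x : V} (hP : Conn G P x) (hQ : ∀ v ∈ Q, ∃ u ∈ P, G.Adj u v) :
    Conn G (P ∪ Q) x := by
  refine ⟨Or.inl hP.1, fun v hv => hv.elim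
    (fun h => reach_mono Set.subset_union_left (hP.2 v h)) fun h => ?_⟩
  obtain ⟨u, hu, huv⟩ := hQ v h
  exact (reach_mono Set.subset_union_left (hP.2 u hu)).tail ⟨Or.inl hu, Or.inr h, huv⟩

lemma Conn.connected {P : Set V} {x : V} (h : Conn G P x) : (G.induce P).Connected := by
  have key : ∀ v, Relation.ReflTransGen (fun a b => a ∈ P ∧ b ∈ P ∧ G.Adj a b) x v →
      ∀ hv : v ∈ P, (G.induce P).Reachable ⟨x, h.1⟩ ⟨v, hv⟩ := by
    intro v hv
    induction hv with
    | refl => intro _; rfl
    | tail _ hab ih =>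
      intro hv
      exact (ih hab.1).trans (SimpleGraph.Adj.reachable (G := G.induce P) hab.2.2)
  have : Nonempty P := ⟨⟨x, h.1⟩⟩
  refine ⟨fun u v => ?_⟩
  exact (key u.1 (h.2 u.1 u.2) u.2).symm.trans (key v.1 (h.2 v.1 v.2) v.2)

/-- a connected set does not cross a cut without edges -/
lemma subset_or_disjoint {T A : Set V} (hT : (G.induce T).Connected)
    (hA : ∀ a ∈ T, ∀ b ∈ T, G.Adj a b → a ∈ A → b ∈ A) : T ⊆ A ∨ Disjoint T A := by
  by_cases h : Disjoint T A
  · exact Or.inr h
  · left
    obtain ⟨a, haT, haA⟩ := Set.not_disjoint_iff.1 h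
    intro v hv
    obtain ⟨p⟩ := hT.preconnected ⟨a, haT⟩ ⟨v, hv⟩
    have key : ∀ (s t : T) (_ : (G.induce T).Walk s t), s.1 ∈ A → t.1 ∈ A := by
      intro s t p
      induction p with
      | nil => exact id
      | cons hadj _ ih => exact fun hs => ih (hA _ (Subtype.prop _) _ (Subtype.prop _) hadj hs)
    exact key _ _ p haA

open Classical in
variable (G) in
/-- balls inside `B` -/
noncomputable def ball (B : Finset V) (x : V) : ℕ → Finset V
  | 0 => {x}
  | j + 1 => ball B x j ∪ B.filter fun v => ∃ u ∈ ball B x j, G.Adj u v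

lemma mem_ball_succ {B : Finset V} {x v : V} {j : ℕ} :
    v ∈ ball G B x (j + 1) ↔ v ∈ ball G B x j ∨ (v ∈ B ∧ ∃ u ∈ ball G B x j, G.Adj u v) := by
  classical
  simp [ball]

lemma ball_subset_succ (B : Finset V) (x : V) (j : ℕ) : ball G B x j ⊆ ball G B x (j + 1) :=
  fun _ hv => mem_ball_succ.2 (Or.inl hv)

lemma ball_mono (B : Finset V) (x : V) {i j : ℕ} (h : i ≤ j) : ball G B x i ⊆ ball G B x j := by
  induction h with
  | refl => exact subset_rfl
  | step _ ih => exact ih.trans (ball_subset_succ B x _)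

lemma self_mem_ball (B : Finset V) (x : V) (j : ℕ) : x ∈ ball G B x j :=
  ball_mono B x (Nat.zero_le j) (by simp [ball])

lemma ball_subset {B : Finset V} {x : V} (hx : x ∈ B) (j : ℕ) : ball G B x j ⊆ B := by
  induction j with
  | zero => simpa [ball] using hx
  | succ j ih =>
    intro v hv
    rcases mem_ball_succ.1 hv with h | h
    · exact ih h
    · exact h.1

lemma mem_ball_add {B : Finset V} {x y : V} (hy : y ∈ B) (j : ℕ) :
    ∀ (i : ℕ) (v : V), v ∈ ball G B x i → v ∈ ball G B y j → y ∈ ball G B x (i + j) := by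
  induction j with
  | zero =>
    intro i v h1 h2
    have : v = y := by simpa [ball] using h2
    exact this ▸ h1
  | succ j ih =>
    intro i v h1 h2
    rcases mem_ball_succ.1 h2 with h | ⟨-, u, hu, huv⟩
    · exact ball_subset_succ B x _ (ih i v h1 h)
    · have := ih (i + 1) u (mem_ball_succ.2 (Or.inr ⟨ball_subset hy j hu, v, h1, huv.symm⟩)) hu
      rwa [add_right_comm] at this

lemma exists_path_of_mem_ball {B : Finset V} {x : V} (hx : x ∈ B) (j : ℕ) :
    ∀ v ∈ ball G B x j, ∃ P : Finset V, P ⊆ B ∧ #P ≤ j + 1 ∧ v ∈ P ∧ Conn G P x := by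
  classical
  induction j with
  | zero =>
    intro v hv
    have : v = x := by simpa [ball] using hv
    subst this
    exact ⟨{v}, by simpa using hx, by simp, by simp, by simpa using conn_singleton v⟩
  | succ j ih =>
    intro v hv
    rcases mem_ball_succ.1 hv with h | ⟨hvB, u, hu, huv⟩
    · obtain ⟨P, h1, h2, h3, h4⟩ := ih v h
      exact ⟨P, h1, h2.trans (Nat.le_succ _), h3, h4⟩
    · obtain ⟨P, h1, h2, h3, h4⟩ := ih u hu
      refine ⟨P ∪ {v}, union_subset h1 (by simpa using hvB), ?_, by simp, ?_⟩
      · exact (card_union_le _ _).trans (by simpa using h2)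
      · rw [coe_union]
        refine h4.extend fun t ht => ⟨u, h3, ?_⟩
        have : t = v := by simpa using ht
        exact this ▸ huv

lemma exists_pad {B : Finset V} {x : V} (hx : x ∈ B) {r : ℕ} (hB : B ⊆ ball G B x r) (t : ℕ)
    (ht : t + 1 ≤ #B) : ∃ P : Finset V, P ⊆ B ∧ #P = t + 1 ∧ Conn G P x := by
  classical
  induction t with
  | zero => exact ⟨{x}, by simpa using hx, by simp, by simpa using conn_singleton x⟩
  | succ t ih =>
    obtain ⟨P, h1, h2, h3⟩ := ih (by omega)
    have key : ∀ j, ball G B x j ⊆ P ∨ ∃ u ∈ P, ∃ v ∈ B, v ∉ P ∧ G.Adj u v := by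
      intro j
      induction j with
      | zero => left; simpa [ball] using h3.1
      | succ j ihj =>
        rcases ihj with h | h
        · by_cases h' : ∃ u ∈ P, ∃ v ∈ B, v ∉ P ∧ G.Adj u v
          · exact Or.inr h'
          · left
            intro v hv
            rcases mem_ball_succ.1 hv with hv | ⟨hvB, u, hu, huv⟩
            · exact h hv
            · by_contra hvP
              exact h' ⟨u, h hu, v, hvB, hvP, huv⟩
        · exact Or.inr h
    rcases key r with h | ⟨u, hu, v, hvB, hvP, huv⟩
    · have := card_le_card (hB.trans h)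
      omega
    · refine ⟨P ∪ {v}, union_subset h1 (by simpa using hvB), ?_, ?_⟩
      · rw [card_union_of_disjoint (by simpa using hvP), h2, card_singleton]
      · rw [coe_union]
        refine h3.extend fun s hs => ⟨u, hu, ?_⟩
        have : s = v := by simpa using hs
        exact this ▸ huv

/-- a small connected set through prescribed vertices -/
lemma exists_tree {B : Finset V} {x : V} (hx : x ∈ B) {r : ℕ} (hB : B ⊆ ball G B x r)
    {l : ℕ} (hl : 1 ≤ l) (hlB : l ≤ #B) (U : Finset V) (hU : U ⊆ B) :
    ∃ T : Finset V, T ⊆ B ∧ l ≤ #T ∧ #T ≤ l + #U * (r + 1) ∧ U ⊆ T ∧ Conn G T x := by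
  classical
  induction U using Finset.induction_on with
  | empty =>
    obtain ⟨P, h1, h2, h3⟩ := exists_pad hx hB (l - 1) (by omega)
    exact ⟨P, h1, by omega, by omega, empty_subset _, h3⟩
  | insert u U hu ih =>
    obtain ⟨T, h1, h2, h3, h4, h5⟩ := ih ((subset_insert _ _).trans hU)
    obtain ⟨P, p1, p2, p3, p4⟩ := exists_path_of_mem_ball hx r u (hB (hU (mem_insert_self _ _)))
    refine ⟨T ∪ P, union_subset h1 p1, h2.trans (card_le_card subset_union_left), ?_, ?_, ?_⟩
    · rw [card_insert_of_notMem hu]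
      have := card_union_le T P
      nlinarith
    · exact insert_subset (mem_union_right _ p3) (h4.trans subset_union_left)
    · rw [coe_union]
      exact h5.union p4

/-- region growing -/
lemma exists_sparse_layer {B : Finset V} {x : V} (hx : x ∈ B) {l m : ℕ} (hl : 1 ≤ l)
    (hm : #B < 2 ^ m) :
    ∃ j < l * m, l * #(ball G B x (j + 1)) ≤ (l + 1) * #(ball G B x j) := by
  by_contra hcon
  push Not at hcon
  have h1 : ∀ j i, j + i ≤ l * m → (l + i) * #(ball G B x j) ≤ l * #(ball G B x (j + i)) := by
    intro j i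
    induction i with
    | zero => intro _; simp
    | succ i ih =>
      intro h
      have h2 := ih (by omega)
      have h3 := hcon (j + i) (by omega)
      have h4 := card_le_card (ball_mono (G := G) B x (Nat.le_add_right j i))
      show (l + (i + 1)) * _ ≤ l * #(ball G B x (j + i + 1))
      nlinarith
  have h2 : ∀ t ≤ m, 2 ^ t ≤ #(ball G B x (l * t)) := by
    intro t
    induction t with
    | zero => intro _; simp [ball]
    | succ t ih =>
      intro ht
      have h3 := ih (by omega)
      have h4 := h1 (l * t) l (by nlinarith)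
      rw [mul_add, mul_one, pow_succ]
      have h5 : l * (2 * #(ball G B x (l * t))) ≤ l * #(ball G B x (l * t + l)) := by linarith
      have h6 := Nat.le_of_mul_le_mul_left h5 hl
      omega
  have h3 := (h2 m le_rfl).trans (card_le_card (ball_subset hx _))
  omega

/-- greedy choice of pairwise non-touching representatives -/
lemma greedy {ι : Type} (x : V) (good : ι → V → Prop) (I : Finset ι) :
    (∃ w : ι → V, (∀ i ∈ I, good i (w i)) ∧ ∀ i ∈ I, ∀ j ∈ I, i ≠ j → ¬ Near G (w i) (w j)) ∨
      ∃ i ∈ I, ∃ W : Finset V, #W ≤ #I ∧ ∀ v, good i v → ∃ u ∈ W, Near G u v := by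
  classical
  induction I using Finset.induction_on with
  | empty => exact Or.inl ⟨fun _ => x, by simp, by simp⟩
  | insert i I hi ih =>
    rcases ih with ⟨w, h1, h2⟩ | ⟨j, hj, W, h1, h2⟩
    · by_cases h : ∃ v, good i v ∧ ∀ j ∈ I, ¬ Near G (w j) v
      · obtain ⟨v, hv1, hv2⟩ := h
        have hne : ∀ j ∈ I, j ≠ i := fun j hj h => hi (h ▸ hj)
        refine Or.inl ⟨Function.update w i v, fun j hj => ?_, fun j hj k hk hjk => ?_⟩
        · rcases mem_insert.1 hj with rfl | hj
          · simpa using hv1
          · simpa [Function.update_of_ne (hne j hj)] using h1 j hj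
        · rcases mem_insert.1 hj with hji | hj <;> rcases mem_insert.1 hk with hki | hk
          · exact absurd (hji.trans hki.symm) hjk
          · rw [hji, Function.update_self, Function.update_of_ne (hne k hk)]
            exact fun h => hv2 k hk h.symm
          · rw [hki, Function.update_self, Function.update_of_ne (hne j hj)]
            exact hv2 j hj
          · rw [Function.update_of_ne (hne j hj), Function.update_of_ne (hne k hk)]
            exact h2 j hj k hk hjk
      · push Not at h
        refine Or.inr ⟨i, mem_insert_self _ _, I.image w,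
          card_image_le.trans (card_le_card (subset_insert _ _)), fun v hv => ?_⟩
        obtain ⟨j, hj, hn⟩ := h v hv
        exact ⟨w j, mem_image_of_mem _ hj, hn⟩
    · exact Or.inr ⟨j, mem_insert_of_mem hj, W, h1.trans (card_le_card (subset_insert _ _)), h2⟩

end Pool.Agent.Lib.MP_4aeae0_co
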