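import Pool.Agent.Lib.MP_4aeae0_co.Basic

-- part Pool.Agent.Lib.MP_4aeae0_co.HubA
section

/-!
Hubs, part A: neighbourhoods inside a region, components, covers by balls, packing.
-/

open Finset

namespace Pool.Agent.Lib.MP_4aeae0_co

variable {V : Type} {G : SimpleGraph V}

variable (G) in
/-- two sets neither meet nor touch -/
def Far (A B : Set V) : Prop := ∀ a ∈ A, ∀ b ∈ B, ¬ Near G a b

lemma Far.symm {A B : Set V} (h : Far G A B) : Far G B A := fun b hb a ha hn => h a ha b hb hn.symm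

lemma Far.mono {A B A' B' : Set V} (h : Far G A B) (hA : A' ⊆ A) (hB : B' ⊆ B) : Far G A' B' :=
  fun a ha b hb => h a (hA ha) b (hB hb)

lemma Far.union {A A' B : Set V} (h : Far G A B) (h' : Far G A' B) : Far G (A ∪ A') B :=
  fun a ha b hb => ha.elim (fun ha => h a ha b hb) fun ha => h' a ha b hb

lemma Far.disjoint {A B : Set V} (h : Far G A B) : Disjoint A B :=
  Set.disjoint_left.2 fun a ha hb => h a ha a hb (near_self a)

lemma Conn.reroot {P : Set V} {x y : V} (h : Conn G P x) (hy : y ∈ P) : Conn G P y := by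
  have hs : ∀ a b, Relation.ReflTransGen (fun a b => a ∈ P ∧ b ∈ P ∧ G.Adj a b) a b →
      Relation.ReflTransGen (fun a b => a ∈ P ∧ b ∈ P ∧ G.Adj a b) b a := by
    intro a b hab
    induction hab with
    | refl => exact Relation.ReflTransGen.refl
    | tail _ h2 ih => exact Relation.ReflTransGen.head ⟨h2.2.1, h2.1, h2.2.2.symm⟩ ih
  exact ⟨hy, fun v hv => (hs _ _ (h.2 y hy)).trans (h.2 v hv)⟩

lemma Conn.glue {P Q : Set V} {x y u t : V} (hP : Conn G P x) (hQ : Conn G Q y) (hu : u ∈ P)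
    (ht : t ∈ Q) (hut : Near G u t) : Conn G (P ∪ Q) x := by
  refine ⟨Or.inl hP.1, fun v hv => hv.elim
    (fun h => reach_mono Set.subset_union_left (hP.2 v h)) fun h => ?_⟩
  have h1 := reach_mono (Q := P ∪ Q) Set.subset_union_left (hP.2 u hu)
  have h2 := reach_mono (Q := P ∪ Q) Set.subset_union_right ((hQ.reroot ht).2 v h)
  rcases hut with rfl | hut
  · exact h1.trans h2
  · exact (h1.tail ⟨Or.inl hu, Or.inr ht, hut⟩).trans h2

/-- a connected set stays inside a set that is closed along its edges -/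
lemma Conn.subset_of_closed {T A : Set V} {x y : V} (hT : Conn G T x) (hy : y ∈ T) (hyA : y ∈ A)
    (hA : ∀ a ∈ T, ∀ b ∈ T, G.Adj a b → a ∈ A → b ∈ A) : T ⊆ A := by
  intro v hv
  have h := (hT.reroot hy).2 v hv
  clear hv
  induction h with
  | refl => exact hyA
  | tail _ h2 ih => exact hA _ h2.1 _ h2.2.1 h2.2.2 ih

lemma conn_of_connected {T : Set V} (h : (G.induce T).Connected) : ∃ x, Conn G T x := by
  obtain ⟨⟨x, hx⟩⟩ := h.nonempty
  refine ⟨x, hx, fun v hv => ?_⟩
  obtain ⟨p⟩ := h.preconnected ⟨x, hx⟩ ⟨v, hv⟩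
  have key : ∀ (s t : T) (_ : (G.induce T).Walk s t),
      Relation.ReflTransGen (fun a b => a ∈ T ∧ b ∈ T ∧ G.Adj a b) s.1 t.1 := by
    intro s t p
    induction p with
    | nil => exact Relation.ReflTransGen.refl
    | cons hadj _ ih =>
      exact Relation.ReflTransGen.head ⟨Subtype.prop _, Subtype.prop _, hadj⟩ ih
  exact key _ _ p

variable (G) in
/-- the vertices reached from `A` in at most `j` steps inside `U` -/
def nb (U A : Set V) : ℕ → Set V
  | 0 => A
  | j + 1 => nb U A j ∪ {v | v ∈ U ∧ ∃ u ∈ nb U A j, G.Adj u v}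

lemma mem_nb_succ {U A : Set V} {j : ℕ} {v : V} :
    v ∈ nb G U A (j + 1) ↔ v ∈ nb G U A j ∨ (v ∈ U ∧ ∃ u ∈ nb G U A j, G.Adj u v) := Iff.rfl

lemma nb_mono_right (U A : Set V) {i j : ℕ} (h : i ≤ j) : nb G U A i ⊆ nb G U A j := by
  induction h with
  | refl => exact subset_rfl
  | step _ ih => exact ih.trans fun _ hv => Or.inl hv

lemma subset_nb (U A : Set V) (j : ℕ) : A ⊆ nb G U A j := nb_mono_right U A (Nat.zero_le j)

lemma nb_subset (U A : Set V) (j : ℕ) : nb G U A j ⊆ A ∪ U := by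
  induction j with
  | zero => exact Set.subset_union_left
  | succ j ih => exact fun v hv => hv.elim (fun h => ih h) fun h => Or.inr h.1

lemma nb_mono {U U' A A' : Set V} (hU : U ⊆ U') (hA : A ⊆ A') (j : ℕ) :
    nb G U A j ⊆ nb G U' A' j := by
  induction j with
  | zero => exact hA
  | succ j ih =>
    rintro v (h | ⟨h1, u, h2, h3⟩)
    · exact Or.inl (ih h)
    · exact Or.inr ⟨hU h1, u, ih h2, h3⟩

lemma mem_nb_of_near {U A : Set V} {i j : ℕ} {u v : V} (hu : u ∈ nb G U A i) (hij : i < j)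
    (hv : v ∈ U) (h : Near G u v) : v ∈ nb G U A j := by
  rcases h with rfl | h
  · exact nb_mono_right U A hij.le hu
  · exact nb_mono_right U A hij (Or.inr ⟨hv, u, hu, h⟩)

/-- a short path from the source set -/
lemma exists_path_nb {U A : Set V} (j : ℕ) : ∀ v ∈ nb G U A j, ∃ a ∈ A, ∃ P : Finset V,
    #P ≤ j + 1 ∧ v ∈ P ∧ Conn G (P : Set V) a ∧ ∀ u ∈ P, u = v ∨ ∃ i < j, u ∈ nb G U A i := by
  classical
  induction j with
  | zero =>
    intro v hv
    exact ⟨v, hv, {v}, by simp, by simp, by simpa using conn_singleton v, by simp⟩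
  | succ j ih =>
    rintro v (h | ⟨-, u, hu, huv⟩)
    · obtain ⟨a, ha, P, h1, h2, h3, h4⟩ := ih v h
      refine ⟨a, ha, P, h1.trans (Nat.le_succ _), h2, h3, fun t ht => ?_⟩
      exact (h4 t ht).imp id fun ⟨i, hi, h⟩ => ⟨i, hi.trans (Nat.lt_succ_self _), h⟩
    · obtain ⟨a, ha, P, h1, h2, h3, h4⟩ := ih u hu
      refine ⟨a, ha, insert v P, (card_insert_le _ _).trans (by omega), mem_insert_self _ _, ?_,
        fun t ht => ?_⟩
      · rw [coe_insert, Set.insert_eq, Set.union_comm]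
        exact h3.glue (conn_singleton v) h2 rfl (Or.inr huv)
      · rcases mem_insert.1 ht with h | h
        · exact Or.inl h
        · right
          rcases h4 t h with rfl | ⟨i, hi, h⟩
          · exact ⟨j, Nat.lt_succ_self _, hu⟩
          · exact ⟨i, hi.trans (Nat.lt_succ_self _), h⟩

lemma edist_le_of_mem_nb {U : Set V} {c : V} (j : ℕ) : ∀ v ∈ nb G U {c} j, G.edist c v ≤ j := by
  induction j with
  | zero =>
    rintro v rfl
    simp
  | succ j ih =>
    rintro v (h | ⟨-, u, hu, huv⟩)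
    · exact (ih v h).trans (by exact_mod_cast Nat.le_succ j)
    · calc G.edist c v ≤ G.edist c u + G.edist u v := G.edist_triangle
        _ ≤ j + 1 := add_le_add (ih u hu) (SimpleGraph.edist_eq_one_iff_adj.2 huv).le
        _ = ((j + 1 : ℕ) : ℕ∞) := by push_cast; rfl

variable (G) in
/-- the union of the balls of radius `r` inside `U` around the points of `C` -/
def balls (U : Set V) (C : Finset V) (r : ℕ) : Set V := {v | ∃ c ∈ C, v ∈ nb G U {c} r}

lemma mem_balls_self {U : Set V} {C : Finset V} {r : ℕ} {c : V} (hc : c ∈ C) :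
    c ∈ balls G U C r := ⟨c, hc, subset_nb U {c} r rfl⟩

lemma balls_subset {U : Set V} {C : Finset V} (hC : (C : Set V) ⊆ U) (r : ℕ) :
    balls G U C r ⊆ U := by
  rintro v ⟨c, hc, hv⟩
  rcases nb_subset U {c} r hv with h | h
  · exact h ▸ hC hc
  · exact h

variable (G) in
/-- `S` is covered by at most `K` balls of radius `ρ` -/
def Covd (S : Set V) (K ρ : ℕ) : Prop :=
  ∃ C : Finset V, #C ≤ K ∧ ∀ x ∈ S, ∃ v ∈ C, G.edist v x ≤ (ρ : ℕ∞)

lemma Covd.mono {S S' : Set V} {K K' ρ ρ' : ℕ} (h : Covd G S K ρ) (hS : S' ⊆ S) (hK : K ≤ K')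
    (hρ : ρ ≤ ρ') : Covd G S' K' ρ' := by
  obtain ⟨C, h1, h2⟩ := h
  refine ⟨C, h1.trans hK, fun x hx => ?_⟩
  obtain ⟨v, hv, h⟩ := h2 x (hS hx)
  exact ⟨v, hv, h.trans (by exact_mod_cast hρ)⟩

lemma Covd.union {S S' : Set V} {K K' ρ : ℕ} (h : Covd G S K ρ) (h' : Covd G S' K' ρ) :
    Covd G (S ∪ S') (K + K') ρ := by
  classical
  obtain ⟨C, h1, h2⟩ := h
  obtain ⟨C', h1', h2'⟩ := h'
  refine ⟨C ∪ C', (card_union_le _ _).trans (add_le_add h1 h1'), fun x hx => ?_⟩
  rcases hx with hx | hx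
  · obtain ⟨v, hv, h⟩ := h2 x hx
    exact ⟨v, mem_union_left _ hv, h⟩
  · obtain ⟨v, hv, h⟩ := h2' x hx
    exact ⟨v, mem_union_right _ hv, h⟩

lemma Covd.near {S : Set V} {K ρ : ℕ} (h : Covd G S K ρ) :
    Covd G {v | ∃ u ∈ S, Near G u v} K (ρ + 1) := by
  obtain ⟨C, h1, h2⟩ := h
  refine ⟨C, h1, ?_⟩
  rintro x ⟨u, hu, hux⟩
  obtain ⟨v, hv, h⟩ := h2 u hu
  refine ⟨v, hv, ?_⟩
  calc G.edist v x ≤ G.edist v u + G.edist u x := G.edist_triangle
    _ ≤ ρ + 1 := add_le_add h hux.edist_le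
    _ = ((ρ + 1 : ℕ) : ℕ∞) := by push_cast; rfl

lemma covd_balls (U : Set V) (C : Finset V) (r : ℕ) : Covd G (balls G U C r) #C r :=
  ⟨C, le_rfl, fun _ ⟨c, hc, hv⟩ => ⟨c, hc, edist_le_of_mem_nb r _ hv⟩⟩

lemma covd_finset (C : Finset V) (ρ : ℕ) : Covd G (C : Set V) #C ρ :=
  ⟨C, le_rfl, fun x hx => ⟨x, hx, by simp⟩⟩

variable (G) in
/-- the outer boundary -/
def bd (U : Set V) : Set V := {v | v ∉ U ∧ ∃ u ∈ U, G.Adj u v}

/-- a maximal family with pairwise disjoint images -/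
lemma packing [Fintype V] {α : Type} (A : Set V) (f : V → Finset α) :
    ∃ M : Finset V, (M : Set V) ⊆ A ∧ (∀ z ∈ M, ∀ z' ∈ M, z ≠ z' → Disjoint (f z) (f z')) ∧
      ∀ z ∈ A, (f z).Nonempty → ∃ z' ∈ M, ¬ Disjoint (f z) (f z') := by
  classical
  obtain ⟨M, hM, hmax⟩ := exists_max_image
    (univ.filter fun M : Finset V =>
      (M : Set V) ⊆ A ∧ ∀ z ∈ M, ∀ z' ∈ M, z ≠ z' → Disjoint (f z) (f z')) card
    ⟨∅, by simp⟩
  obtain ⟨h1, h2⟩ := (mem_filter.1 hM).2
  refine ⟨M, h1, h2, fun z hz hne => ?_⟩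
  by_contra hcon
  push Not at hcon
  have hzM : z ∉ M := fun h => by
    have := hcon z h
    rw [disjoint_self_iff_empty] at this
    exact hne.ne_empty this
  have := hmax (insert z M) (mem_filter.2 ⟨mem_univ _, ?_, ?_⟩)
  · rw [card_insert_of_notMem hzM] at this
    omega
  · rw [coe_insert]
    exact Set.insert_subset hz h1
  · intro a ha b hb hab
    rcases mem_insert.1 ha with ha' | ha' <;> rcases mem_insert.1 hb with hb' | hb'
    · exact absurd (ha'.trans hb'.symm) hab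
    · exact ha' ▸ hcon b hb'
    · exact hb' ▸ (hcon a ha').symm
    · exact h2 a ha' b hb' hab

section weight

variable [Fintype V] (w : V → ℝ)

open Classical in
/-- more than half of the total weight -/
def Big (A : Set V) : Prop := (∑ v, w v) / 2 < ∑ v ∈ univ.filter (· ∈ A), w v

variable {w}

lemma Big.mono (hw : ∀ v, 0 ≤ w v) {A B : Set V} (h : Big w A) (hAB : A ⊆ B) : Big w B := by
  classical
  refine lt_of_lt_of_le h (sum_le_sum_of_subset_of_nonneg ?_ fun v _ _ => hw v)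
  intro v hv
  simp only [mem_filter, mem_univ, true_and] at hv ⊢
  exact hAB hv

lemma Big.inter (hw : ∀ v, 0 ≤ w v) {A B : Set V} (hA : Big w A) (hB : Big w B) :
    ∃ v, v ∈ A ∧ v ∈ B := by
  classical
  by_contra hcon
  push Not at hcon
  have hd : Disjoint (univ.filter (· ∈ A)) (univ.filter (· ∈ B)) := by
    rw [disjoint_left]
    intro v h1 h2
    exact hcon v (mem_filter.1 h1).2 (mem_filter.1 h2).2
  have h1 := sum_union (f := w) hd
  have h2 : ∑ v ∈ univ.filter (· ∈ A) ∪ univ.filter (· ∈ B), w v ≤ ∑ v, w v :=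
    sum_le_sum_of_subset_of_nonneg (subset_univ _) fun v _ _ => hw v
  unfold Big at hA hB
  have e1 : (univ.filter (· ∈ A) : Finset V) =
      @Finset.filter V (· ∈ A) (fun _ => Classical.propDecidable _) univ := by congr
  have e2 : (univ.filter (· ∈ B) : Finset V) =
      @Finset.filter V (· ∈ B) (fun _ => Classical.propDecidable _) univ := by congr
  linarith

variable (G w) in
/-- `B` is the heavy component of `U` -/
structure IsComp (U B : Set V) : Prop where
  sub : B ⊆ U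
  conn : ∃ x, Conn G B x
  big : Big w B
  closed : ∀ b ∈ B, ∀ t ∈ U, G.Adj b t → t ∈ B

variable (G w) in
/-- no set covered by `K` balls of radius `ρ` is a balanced separator -/
def NoSep (K ρ : ℕ) : Prop :=
  ∀ S : Set V, Covd G S K ρ → ∃ T : Set V, Disjoint T S ∧ (∃ x, Conn G T x) ∧ Big w T

lemma IsComp.subset_of_big (hw : ∀ v, 0 ≤ w v) {U B T : Set V} (h : IsComp G w U B)
    (hT : T ⊆ U) (hc : ∃ x, Conn G T x) (hb : Big w T) : T ⊆ B := by
  obtain ⟨x, hx⟩ := hc
  obtain ⟨v, h1, h2⟩ := hb.inter hw h.big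
  exact hx.subset_of_closed h1 h2 fun a _ b hb hab ha => h.closed a ha b (hT hb) hab

lemma IsComp.bd_subset {U Y B : Set V} (h : IsComp G w (U \ Y) B) : bd G B ⊆ bd G U ∪ Y := by
  rintro v ⟨hv, u, hu, huv⟩
  by_cases hY : v ∈ Y
  · exact Or.inr hY
  · exact Or.inl ⟨fun hU => hv (h.closed u hu v ⟨hU, hY⟩ huv), u, (h.sub hu).1, huv⟩

lemma exists_comp (hw : ∀ v, 0 ≤ w v) {K ρ : ℕ} (hns : NoSep G w K ρ) {U Y : Set V}
    (hU : Big w U) (hc : Covd G (bd G U ∪ Y) K ρ) : ∃ B, IsComp G w (U \ Y) B := by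
  obtain ⟨T, hd, ⟨x, hx⟩, hb⟩ := hns _ hc
  obtain ⟨y, hyT, hyU⟩ := hb.inter hw hU
  have hTU : T ⊆ U := hx.subset_of_closed hyT hyU fun a _ b hbT hab ha => by
    by_contra hbU
    exact Set.disjoint_left.1 hd hbT (Or.inl ⟨hbU, a, ha, hab⟩)
  have hT : T ⊆ U \ Y := fun v hv => ⟨hTU hv, fun h => Set.disjoint_left.1 hd hv (Or.inr h)⟩
  let B : Set V :=
    {v | Relation.ReflTransGen (fun a b => a ∈ U \ Y ∧ b ∈ U \ Y ∧ G.Adj a b) x v}
  have hBs : B ⊆ U \ Y := by
    intro v hv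
    induction hv with
    | refl => exact hT hx.1
    | tail _ h2 _ => exact h2.2.1
  refine ⟨B, hBs, ⟨x, Relation.ReflTransGen.refl, fun v hv => ?_⟩, hb.mono hw fun v hv =>
    reach_mono hT (hx.2 v hv), fun b hb t ht hbt => Relation.ReflTransGen.tail hb ⟨hBs hb, ht, hbt⟩⟩
  induction hv with
  | refl => exact Relation.ReflTransGen.refl
  | tail h1 h2 ih => exact ih.tail ⟨h1, h1.tail h2, h2.2.2⟩

open Classical in
/-- one of the first `s` layers is small -/
lemma exists_small_layer (U A : Set V) {s : ℕ} (hs : 1 ≤ s) (hn : Fintype.card V ≤ s * s) :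
    ∃ j < s, #(univ.filter fun v => v ∈ nb G U A (j + 1) ∧ v ∉ nb G U A j) ≤ s := by
  by_contra hcon
  push Not at hcon
  have h1 : ∀ j ≤ s, j * (s + 1) ≤ #(univ.filter fun v => v ∈ nb G U A j) := by
    intro j
    induction j with
    | zero => intro _; simp
    | succ j ih =>
      intro hj
      have h2 := ih (by omega)
      have h3 := hcon j (by omega)
      have h4 : univ.filter (fun v => v ∈ nb G U A (j + 1)) =
          univ.filter (fun v => v ∈ nb G U A j) ∪
            univ.filter fun v => v ∈ nb G U A (j + 1) ∧ v ∉ nb G U A j := by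
        ext v
        simp only [mem_filter, mem_univ, true_and, mem_union]
        constructor
        · intro h
          by_cases h' : v ∈ nb G U A j
          · exact Or.inl h'
          · exact Or.inr ⟨h, h'⟩
        · rintro (h | h)
          · exact Or.inl h
          · exact h.1
      rw [h4, card_union_of_disjoint]
      · nlinarith
      · rw [disjoint_left]
        intro v h5 h6
        exact (mem_filter.1 h6).2.2 (mem_filter.1 h5).2
  have h2 := (h1 s le_rfl).trans (card_le_univ _)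
  nlinarith

end weight

end Pool.Agent.Lib.MP_4aeae0_co
end

-- part Pool.Agent.Lib.MP_4aeae0_co.HubB
section

/-!
Hubs, part B: existence of one hub that cannot be cut off from the heavy part.
-/

open Finset

namespace Pool.Agent.Lib.MP_4aeae0_co

variable {V : Type} {G : SimpleGraph V}

/-- root, core, centres and connecting sets of a hub -/
structure HD (V : Type) where
  x : V
  R : Set V
  C : Finset V
  p : V → Finset V

lemma not_near_of_inner {U B : Set V} {C : Finset V} {r i : ℕ} (hB : B ⊆ U \ balls G U C r)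
    {c q b : V} (hc : c ∈ C) (hi : i < r) (hq : q ∈ nb G U {c} i) (hb : b ∈ B) : ¬ Near G q b :=
  fun h => (hB hb).2 ⟨c, hc, mem_nb_of_near hq hi (hB hb).1 h⟩

/-- a short set joining a point of a neighbourhood of `R` to `R` -/
lemma exists_join {X R : Set V} {x : V} (hR : Conn G R x) {j : ℕ} {v : V} (hv : v ∈ nb G X R j) :
    ∃ P : Finset V, #P ≤ j + 1 ∧ v ∈ P ∧ Conn G (R ∪ P) x ∧
      ∀ u ∈ P, u = v ∨ ∃ i < j, u ∈ nb G X R i := by
  obtain ⟨a, ha, P, h1, h2, h3, h4⟩ := exists_path_nb j v hv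
  exact ⟨P, h1, h2, hR.glue h3 ha h3.1 (near_self a), h4⟩

variable [Fintype V] {w : V → ℝ}

variable (G w) in
/-- a hub in the region `U`, with live region `B` -/
structure Hub (U B : Set V) (d : HD V) (r L k : ℕ) : Prop where
  conn : Conn G d.R d.x
  int : ∀ v ∈ d.R, v ∈ U ∧ ∀ t, G.Adj v t → t ∈ U
  card : #d.C ≤ k
  pself : ∀ c ∈ d.C, c ∈ d.p c
  psub : ∀ c ∈ d.C, (d.p c : Set V) ⊆ U
  pcard : ∀ c ∈ d.C, #(d.p c) ≤ L
  pconn : ∀ c ∈ d.C, Conn G (d.R ∪ d.p c) d.x
  pfar : ∀ c ∈ d.C, Far G (d.p c) B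
  far : Far G d.R B
  comp : IsComp G w (U \ balls G U d.C r) B

variable (G w) in
/-- few balls do not cut the fence off from most of the weight -/
def Insep (U B : Set V) (C : Finset V) (r κ s : ℕ) : Prop :=
  ∀ Y : Finset V, (Y : Set V) ⊆ U → #Y ≤ κ → ∃ Λ, IsComp G w (B \ balls G U Y r) Λ ∧
    Big w (nb G Λ {a | a ∈ Λ ∧ ∃ b ∈ balls G U C r, b ∉ balls G U Y r ∧ G.Adj b a} s)

lemma Hub.csub {U B : Set V} {d : HD V} {r L k : ℕ} (h : Hub G w U B d r L k) :
    (d.C : Set V) ⊆ U := fun c hc => h.psub c hc (h.pself c hc)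

lemma Hub.covd {U B : Set V} {d : HD V} {r L k K0 ρ : ℕ} (h : Hub G w U B d r L k)
    (hU : Covd G (bd G U) K0 ρ) (hr : r ≤ ρ) : Covd G (bd G B) (K0 + k) ρ :=
  (hU.union ((covd_balls U d.C r).mono subset_rfl h.card hr)).mono h.comp.bd_subset le_rfl le_rfl

/-- walks from the core enter the live region through the fence -/
lemma nb_inter_subset {U B Λ : Set V} {d : HD V} {r L k : ℕ} (hd : Hub G w U B d r L k)
    {Y : Finset V} (hΛ : IsComp G w (B \ balls G U Y r) Λ) (j : ℕ) :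
    ∀ v ∈ nb G (U \ balls G U Y r) d.R j, v ∈ Λ →
      v ∈ nb G Λ {a | a ∈ Λ ∧ ∃ b ∈ balls G U d.C r, b ∉ balls G U Y r ∧ G.Adj b a} j := by
  induction j with
  | zero => exact fun v hv hvΛ => absurd (near_self v) (hd.far v hv v (hΛ.sub hvΛ).1)
  | succ j ih =>
    rintro v (h | ⟨-, u, hu, huv⟩) hvΛ
    · exact Or.inl (ih v h hvΛ)
    · by_cases huΛ : u ∈ Λ
      · exact Or.inr ⟨hvΛ, u, ih u hu huΛ, huv⟩
      · refine subset_nb _ _ _ ⟨hvΛ, u, ?_, ?_, huv⟩
        · rcases nb_subset _ _ _ hu with h | h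
          · exact absurd (Or.inr huv) (hd.far u h v (hΛ.sub hvΛ).1)
          · by_contra hC
            have huB : u ∈ B := hd.comp.closed v (hΛ.sub hvΛ).1 u ⟨h.1, hC⟩ huv.symm
            exact huΛ (hΛ.closed v hvΛ u ⟨huB, h.2⟩ huv.symm)
        · rcases nb_subset _ _ _ hu with h | h
          · exact absurd (Or.inr huv) (hd.far u h v (hΛ.sub hvΛ).1)
          · exact h.2

/-- a hub that can be cut off grows -/
lemma grow (hw : ∀ v, 0 ≤ w v) {K ρ K0 r s k κ : ℕ} (hns : NoSep G w K ρ) {U I B Λ : Set V}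
    (hU : Covd G (bd G U) K0 ρ) (hrρ : r ≤ ρ) (hr : 1 ≤ r) (hs : 1 ≤ s)
    (hn : Fintype.card V ≤ s * s) (hk : s + 2 * κ + 1 ≤ k) (hK : K0 + k + κ + s ≤ K)
    (hIc : ∃ y, Conn G I y) (hIb : Big w I) (hIi : ∀ v ∈ I, v ∈ U ∧ ∀ t, G.Adj v t → t ∈ U)
    {d : HD V} (hd : Hub G w U B d r (s + r + 1) k) (hRI : d.R ⊆ I) {Y : Finset V}
    (hY : (Y : Set V) ⊆ U) (hYκ : #Y ≤ κ) (hΛ : IsComp G w (B \ balls G U Y r) Λ)
    (hnb : ¬ Big w
      (nb G Λ {a | a ∈ Λ ∧ ∃ b ∈ balls G U d.C r, b ∉ balls G U Y r ∧ G.Adj b a} s)) :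
    ∃ (d' : HD V) (B' : Set V), Hub G w U B' d' r (s + r + 1) k ∧ d'.R ⊆ I ∧ d.R ⊂ d'.R := by
  classical
  set X : Set V := U \ balls G U Y r with hX
  have hRU : d.R ⊆ U := fun v hv => (hd.int v hv).1
  have hDU : ∀ j, nb G X d.R j ⊆ U := fun j v hv =>
    (nb_subset _ _ _ hv).elim (fun h => hRU h) fun h => h.1
  obtain ⟨j, hj, hZ⟩ := exists_small_layer (G := G) X d.R hs hn
  set Z : Finset V := univ.filter fun v => v ∈ nb G X d.R (j + 1) ∧ v ∉ nb G X d.R j with hZd
  have hZm : ∀ v, v ∈ Z ↔ v ∈ nb G X d.R (j + 1) ∧ v ∉ nb G X d.R j := by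
    intro v
    simp [hZd]
  -- the heavy part behind the small layer
  have hcΛ : Covd G (bd G Λ) (K0 + k + κ) ρ :=
    ((hd.covd hU hrρ).union ((covd_balls U Y r).mono subset_rfl hYκ hrρ)).mono hΛ.bd_subset
      le_rfl le_rfl
  obtain ⟨B0, hB0⟩ := exists_comp hw hns (Y := (Z : Set V)) hΛ.big
    ((hcΛ.union ((covd_finset Z ρ).mono subset_rfl hZ le_rfl)).mono subset_rfl hK le_rfl)
  have hB0D : ∀ v ∈ B0, v ∉ nb G X d.R j := by
    intro v hv hvD
    obtain ⟨y, hy⟩ := hB0.conn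
    have hsub : B0 ⊆ nb G X d.R j := hy.subset_of_closed hv hvD fun a _ b hb hab ha => by
      by_contra hbD
      have hbΛ := (hB0.sub hb).1
      have hbX : b ∈ X := ⟨(hd.comp.sub (hΛ.sub hbΛ).1).1, (hΛ.sub hbΛ).2⟩
      exact (hB0.sub hb).2 ((hZm b).2 ⟨Or.inr ⟨hbX, a, ha, hab⟩, hbD⟩)
    refine hnb (hB0.big.mono hw fun t ht => ?_)
    exact nb_mono_right _ _ hj.le (nb_inter_subset hd hΛ j t (hsub ht) (hB0.sub ht).1)
  -- a new vertex for the core
  obtain ⟨b, hbI, hbR, u0, hu0, hub⟩ : ∃ b ∈ I, b ∉ d.R ∧ ∃ u ∈ d.R, G.Adj u b := by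
    by_contra hcon
    push Not at hcon
    obtain ⟨y, hy⟩ := hIc
    have hsub : I ⊆ d.R := hy.subset_of_closed (hRI hd.conn.1) hd.conn.1 fun a _ b hb hab ha => by
      by_contra hbR
      exact hcon b hb hbR a ha hab
    obtain ⟨v, h1, h2⟩ := hIb.inter hw hd.comp.big
    exact hd.far v (hsub h1) v h2 (near_self v)
  -- the relevant deleted balls
  set Yr : Finset V := Y.filter fun y => ∃ e ∈ nb G U {y} r, ∃ u ∈ nb G X d.R j, G.Adj u e with hYr
  have he : ∀ y, ∃ e, y ∈ Yr → e ∈ nb G U {y} r ∧ ∃ u ∈ nb G X d.R j, G.Adj u e := by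
    intro y
    by_cases hy : y ∈ Yr
    · obtain ⟨e, h1, h2⟩ := (mem_filter.1 hy).2
      exact ⟨e, fun _ => ⟨h1, h2⟩⟩
    · exact ⟨y, fun h => absurd h hy⟩
  choose e he using he
  set C' : Finset V := Z ∪ Yr ∪ Yr.image e ∪ {b} with hC'
  have hcard : #C' ≤ k := by
    have h1 := card_union_le (Z ∪ Yr ∪ Yr.image e) {b}
    have h2 := card_union_le (Z ∪ Yr) (Yr.image e)
    have h3 := card_union_le Z Yr
    have h4 : #(Yr.image e) ≤ #Yr := card_image_le
    have h5 : #Yr ≤ #Y := card_filter_le _ _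
    rw [card_singleton] at h1
    rw [hC']
    omega
  have hZC : ∀ v ∈ Z, v ∈ C' := fun v hv => by simp [hC', hv]
  have hYC : ∀ v ∈ Yr, v ∈ C' := fun v hv => by simp [hC', hv]
  have heC : ∀ v ∈ Yr, e v ∈ C' := fun v hv =>
    mem_union_left _ (mem_union_right _ (mem_image_of_mem _ hv))
  have hbC : b ∈ C' := by simp [hC']
  have hUb : Big w U := hd.comp.big.mono hw fun v hv => (hd.comp.sub hv).1
  obtain ⟨B', hB'⟩ := exists_comp hw hns (Y := balls G U C' r) hUb
    ((hU.union ((covd_balls U C' r).mono subset_rfl hcard hrρ)).mono subset_rfl (by omega) le_rfl)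
  have hclosed : ∀ a ∈ nb G X d.R j, ∀ t ∈ B', G.Adj a t → t ∈ nb G X d.R j := by
    intro a ha t ht hat
    by_contra htD
    by_cases htY : t ∈ balls G U Y r
    · obtain ⟨y, hy, hty⟩ := htY
      exact (hB'.sub ht).2 ⟨y, hYC y (mem_filter.2 ⟨hy, t, hty, a, ha, hat⟩), hty⟩
    · exact (hB'.sub ht).2 (mem_balls_self (hZC t ((hZm t).2
        ⟨Or.inr ⟨⟨(hB'.sub ht).1, htY⟩, a, ha, hat⟩, htD⟩)))
  have hB'D : ∀ v ∈ B', v ∉ nb G X d.R j := by
    intro v hv hvD
    obtain ⟨y, hy⟩ := hB'.conn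
    have hsub : B' ⊆ nb G X d.R j :=
      hy.subset_of_closed hv hvD fun a _ t ht hat ha => hclosed a ha t ht hat
    obtain ⟨t, h1, h2⟩ := hB'.big.inter hw hB0.big
    exact hB0D t h2 (hsub h1)
  have hfarD : Far G (nb G X d.R j) B' := by
    rintro a ha t ht (rfl | hat)
    · exact hB'D a ht ha
    · exact hB'D t ht (hclosed a ha t ht hat)
  have hfarC : ∀ c ∈ C', ∀ t ∈ B', ¬ Near G c t := fun c hc t ht =>
    not_near_of_inner hB'.sub hc (i := 0) hr rfl ht
  have hRb : Conn G (d.R ∪ {b}) d.x := hd.conn.glue (conn_singleton b) hu0 rfl (Or.inr hub)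
  have hjoin : ∀ P : Set V, Conn G (d.R ∪ P) d.x → Conn G (d.R ∪ {b} ∪ P) d.x := by
    intro P hP
    have := hRb.union hP
    rwa [Set.union_union_distrib_left d.R {b} P |>.symm, ← Set.union_assoc] at this
  have hP : ∀ c, ∃ P : Finset V, c ∈ C' → c ∈ P ∧ (P : Set V) ⊆ U ∧ #P ≤ s + r + 1 ∧
      Conn G (d.R ∪ {b} ∪ P) d.x ∧ Far G (P : Set V) B' := by
    have key : ∀ y ∈ Yr, ∃ P : Finset V, y ∈ P ∧ e y ∈ P ∧ (P : Set V) ⊆ U ∧ #P ≤ s + r + 1 ∧
        Conn G (d.R ∪ {b} ∪ P) d.x ∧ Far G (P : Set V) B' := by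
      intro y hy
      obtain ⟨h1, u, hu, hue⟩ := he y hy
      have hyU : y ∈ U := hY (mem_filter.1 hy).1
      obtain ⟨a, ha, Q, q1, q2, q3, q4⟩ := exists_path_nb r _ h1
      obtain rfl : a = y := ha
      obtain ⟨P, p1, p2, p3, p4⟩ := exists_join hd.conn hu
      have hnU : ∀ i, nb G U {a} i ⊆ U := fun i v hv =>
        (nb_subset _ _ _ hv).elim (fun h => h ▸ hyU) id
      have hPD : ∀ t ∈ P, t ∈ nb G X d.R j := fun t ht =>
        (p4 t ht).elim (fun h => h ▸ hu) fun ⟨i, hi, h⟩ => nb_mono_right _ _ hi.le h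
      refine ⟨P ∪ Q, mem_union_right _ q3.1, mem_union_right _ q2, ?_, ?_, ?_, ?_⟩
      · rw [coe_union]
        refine Set.union_subset (fun t ht => hDU j (hPD t ht)) fun t ht => ?_
        rcases q4 t ht with rfl | ⟨i, -, h⟩
        · exact hnU r h1
        · exact hnU i h
      · have := card_union_le P Q
        omega
      · apply hjoin
        rw [coe_union, ← Set.union_assoc]
        exact p3.glue q3 (Or.inr p2) q2 (Or.inr hue)
      · rw [coe_union]
        refine (hfarD.mono hPD subset_rfl).union fun t ht v hv => ?_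
        rcases q4 t ht with rfl | ⟨i, hi, h⟩
        · exact hfarC _ (heC a hy) v hv
        · exact not_near_of_inner hB'.sub (hYC a hy) hi h hv
    intro c
    by_cases hc : c ∈ C'
    · simp only [hC', mem_union, mem_image, mem_singleton] at hc
      rcases hc with ((hc | hc) | ⟨y, hy, rfl⟩) | rfl
      · obtain ⟨P, p1, p2, p3, p4⟩ := exists_join hd.conn ((hZm c).1 hc).1
        refine ⟨P, fun _ => ⟨p2, fun t ht => ?_, by omega, hjoin _ p3, fun t ht v hv => ?_⟩⟩
        · rcases p4 t ht with rfl | ⟨i, -, h⟩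
          · exact hDU _ ((hZm t).1 hc).1
          · exact hDU i h
        · rcases p4 t ht with rfl | ⟨i, hi, h⟩
          · exact hfarC _ (hZC t hc) v hv
          · exact hfarD t (nb_mono_right _ _ (by omega) h) v hv
      · obtain ⟨P, p1, -, p3⟩ := key c hc
        exact ⟨P, fun _ => ⟨p1, p3⟩⟩
      · obtain ⟨P, -, p2, p3⟩ := key y hy
        exact ⟨P, fun _ => ⟨p2, p3⟩⟩
      · refine ⟨{c}, fun _ => ⟨mem_singleton_self _, ?_, by simp, ?_, ?_⟩⟩
        · simpa using (hIi c hbI).1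
        · rw [coe_singleton, Set.union_assoc, Set.union_self]
          exact hRb
        · intro t ht v hv
          obtain rfl : t = c := by simpa using ht
          exact hfarC _ hbC v hv
    · exact ⟨∅, fun h => absurd h hc⟩
  choose p hp using hP
  have hRI' : d.R ∪ {b} ⊆ I := Set.union_subset hRI (by simpa using hbI)
  refine ⟨⟨d.x, d.R ∪ {b}, C', p⟩, B', ⟨hRb, fun v hv => hIi v (hRI' hv), hcard,
    fun c hc => (hp c hc).1, fun c hc => (hp c hc).2.1, fun c hc => (hp c hc).2.2.1,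
    fun c hc => (hp c hc).2.2.2.1, fun c hc => (hp c hc).2.2.2.2, ?_, hB'⟩, hRI', ?_⟩
  · refine (hfarD.mono (subset_nb _ _ _) subset_rfl).union fun t ht v hv => ?_
    obtain rfl : t = b := ht
    exact hfarC _ hbC v hv
  · exact ⟨Set.subset_union_left, fun h => hbR (h (Or.inr rfl))⟩

/-- every heavy region with a covered boundary contains a hub that cannot be cut off -/
theorem exists_hub (hw : ∀ v, 0 ≤ w v) {K ρ K0 r s k κ : ℕ} (hns : NoSep G w K (ρ + 1))
    {U : Set V} (hUb : Big w U) (hU : Covd G (bd G U) K0 ρ) (hrρ : r ≤ ρ) (hr : 1 ≤ r)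
    (hs : 1 ≤ s) (hn : Fintype.card V ≤ s * s) (hk : s + 2 * κ + 1 ≤ k)
    (hK : K0 + k + κ + s ≤ K) :
    ∃ (d : HD V) (B : Set V), Hub G w U B d r (s + r + 1) k ∧ Insep G w U B d.C r κ s := by
  classical
  have hU' : Covd G (bd G U) K0 (ρ + 1) := hU.mono subset_rfl le_rfl (Nat.le_succ _)
  have hrρ' : r ≤ ρ + 1 := hrρ.trans (Nat.le_succ _)
  obtain ⟨I, hI⟩ := exists_comp hw hns (Y := {v | ∃ u ∈ bd G U, Near G u v}) hUb
    (hU.near.mono (Set.union_subset (fun v hv => ⟨v, hv, near_self v⟩) subset_rfl) (by omega)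
      le_rfl)
  have hIi : ∀ v ∈ I, v ∈ U ∧ ∀ t, G.Adj v t → t ∈ U := by
    intro v hv
    refine ⟨(hI.sub hv).1, fun t hvt => ?_⟩
    by_contra ht
    exact (hI.sub hv).2 ⟨t, ⟨ht, v, (hI.sub hv).1, hvt⟩, Or.inr hvt.symm⟩
  by_contra hcon
  push Not at hcon
  have key : ∀ m : ℕ, ∃ (d : HD V) (B : Set V), Hub G w U B d r (s + r + 1) k ∧ d.R ⊆ I ∧
      m ≤ d.R.ncard := by
    intro m
    induction m with
    | zero =>
      obtain ⟨v, hv⟩ := hI.conn
      have hvU := (hIi v hv.1).1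
      obtain ⟨B, hB⟩ := exists_comp hw hns (Y := balls G U {v} r) hUb
        ((hU'.union ((covd_balls U {v} r).mono subset_rfl le_rfl hrρ')).mono subset_rfl
          (by rw [card_singleton]; omega) le_rfl)
      have hfar : Far G {v} B := by
        rintro t rfl b hb
        exact not_near_of_inner hB.sub (mem_singleton_self t) (i := 0) hr rfl hb
      refine ⟨⟨v, {v}, {v}, fun _ => {v}⟩, B, ⟨conn_singleton v, ?_, ?_, ?_, ?_, ?_, ?_, ?_, hfar,
        hB⟩, by simpa using hv.1, Nat.zero_le _⟩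
      · rintro t rfl
        exact hIi t hv.1
      · show #({v} : Finset V) ≤ k
        rw [card_singleton]
        omega
      · exact fun c hc => hc
      · intro c _
        simpa using hvU
      · intro c _
        simp
      · intro c _
        simpa using conn_singleton v
      · intro c _
        simpa using hfar
    | succ m ih =>
      obtain ⟨d, B, hd, hRI, hm⟩ := ih
      have h1 := hcon d B hd
      unfold Insep at h1
      push Not at h1
      obtain ⟨Y, hY, hYκ, h1⟩ := h1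
      obtain ⟨Λ, hΛ⟩ := exists_comp hw hns (Y := balls G U Y r) hd.comp.big
        (((hd.covd hU' hrρ').union ((covd_balls U Y r).mono subset_rfl hYκ hrρ')).mono subset_rfl
          (by omega) le_rfl)
      obtain ⟨d', B', hd', hRI', hlt⟩ := grow hw hns hU' hrρ' hr hs hn hk hK hI.conn hI.big hIi hd
        hRI hY hYκ hΛ (h1 Λ hΛ)
      exact ⟨d', B', hd', hRI', (Nat.succ_le_succ hm).trans (Set.ncard_lt_ncard hlt)⟩
  obtain ⟨d, B, -, -, hm⟩ := key (Fintype.card V + 1)
  have := Set.ncard_le_card d.R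
  rw [Nat.card_eq_fintype_card] at this
  omega

end Pool.Agent.Lib.MP_4aeae0_co
end

-- part Pool.Agent.Lib.MP_4aeae0_co.HubC
section

/-!
Hubs, part C: a nested sequence of hubs and the access lemma.
-/

open Finset

namespace Pool.Agent.Lib.MP_4aeae0_co

variable {V : Type} {G : SimpleGraph V}

open Classical in
variable (G) in
/-- the centres whose connecting set touches `z` -/
noncomputable def harm (C : Finset V) (p : V → Finset V) (z : V) : Finset V :=
  C.filter fun c => ∃ q ∈ p c, Near G z q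

lemma mem_harm {C : Finset V} {p : V → Finset V} {z c : V} :
    c ∈ harm G C p z ↔ c ∈ C ∧ ∃ q ∈ p c, Near G z q := by
  classical
  simp [harm]

variable (G) in
/-- an exit of hub `u` that does not disturb the later hubs -/
def Good (U : ℕ → Set V) (d : ℕ → HD V) (t : ℕ → ℕ) (u : ℕ) (z : V) : Prop :=
  ∀ y < u, (∀ q ∈ balls G (U (y + 1)) (d y).C (y + 2), ¬ Near G z q) ∧
    #(harm G (d y).C (d y).p z) < t y

variable (G) in
/-- the invariant of the second phase -/
structure Inv (h : ℕ) (U : ℕ → Set V) (d : ℕ → HD V) (t : ℕ → ℕ) (F : Finset (ℕ × ℕ))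
    (P : ℕ → Finset V) (PP SS : Finset V) : Prop where
  conn : ∀ u < h, Conn G ((d u).R ∪ P u) (d u).x
  loc : ∀ u < h, ∀ z ∈ P u, z ∈ PP ∧ z ∈ U (u + 1) ∧
    (z ∈ U 0 ∨ (z ∈ SS ∧ Good G U d t u z) ∨ ∀ b ∈ U u, ¬ Near G z b)
  disj : ∀ u < h, ∀ v < h, u ≠ v → Disjoint ((d u).R ∪ P u) ((d v).R ∪ P v)
  far : ∀ u < h, ∀ v < h, u ≠ v → (u, v) ∉ F → (v, u) ∉ F →
    Far G ((d u).R ∪ P u) ((d v).R ∪ P v)
  deg : ∀ z ∈ SS, z ∈ U h

variable [Fintype V] {w : V → ℝ}

open Classical in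
variable (G) in
/-- the neighbourhood of a vertex -/
noncomputable def nbr (z : V) : Finset V := univ.filter fun v => G.Adj z v

lemma mem_nbr {z v : V} : v ∈ nbr G z ↔ G.Adj z v := by
  classical
  simp [nbr]

/-- vertices of large degree are covered by few balls -/
lemma covd_high {s : ℕ} (hs : 1 ≤ s) (hn : Fintype.card V ≤ s * s) :
    Covd G {v | s ≤ #(nbr G v)} s 2 := by
  classical
  obtain ⟨M, h1, h2, h3⟩ := packing {v | s ≤ #(nbr G v)} (nbr G)
  refine ⟨M, ?_, fun z hz => ?_⟩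
  · have h4 : #M * s ≤ ∑ z ∈ M, #(nbr G z) := by
      rw [← smul_eq_mul]
      exact card_nsmul_le_sum _ _ _ fun z hz => h1 hz
    rw [← card_biUnion fun z hz z' hz' hne => h2 z hz z' hz' hne] at h4
    exact Nat.le_of_mul_le_mul_right (h4.trans ((card_le_univ _).trans hn)) hs
  · obtain ⟨z', hz', hd⟩ := h3 z hz (card_pos.1 (lt_of_lt_of_le hs hz))
    obtain ⟨q, hq, hq'⟩ := not_disjoint_iff.1 hd
    refine ⟨z', hz', ?_⟩
    calc G.edist z' z ≤ G.edist z' q + G.edist q z := G.edist_triangle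
      _ ≤ 1 + 1 := add_le_add (SimpleGraph.edist_eq_one_iff_adj.2 (mem_nbr.1 hq')).le
          (SimpleGraph.edist_eq_one_iff_adj.2 (mem_nbr.1 hq).symm).le
      _ = ((2 : ℕ) : ℕ∞) := by norm_num

/-- harmful vertices are covered by few balls -/
lemma harm_cover {U : Set V} {C : Finset V} {p : V → Finset V} {L t : ℕ}
    (hp : ∀ c ∈ C, (p c : Set V) ⊆ U) (hL : ∀ c ∈ C, #(p c) ≤ L) (ht : 1 ≤ t) :
    ∃ F : Finset V, (F : Set V) ⊆ U ∧ #F * t ≤ #C * L ∧
      ∀ z ∈ U, t ≤ #(harm G C p z) → z ∈ balls G U F 2 := by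
  classical
  set T : Finset (V × V) := C.biUnion fun c => (p c).image fun q => (c, q) with hT
  have hTm : ∀ c q, (c, q) ∈ T ↔ c ∈ C ∧ q ∈ p c := by
    intro c q
    simp only [hT, mem_biUnion, mem_image, Prod.mk.injEq]
    constructor
    · rintro ⟨c', h1, q', h2, rfl, rfl⟩
      exact ⟨h1, h2⟩
    · rintro ⟨h1, h2⟩
      exact ⟨c, h1, q, h2, rfl, rfl⟩
  have hTc : #T ≤ #C * L :=
    card_biUnion_le_card_mul _ _ _ fun c hc => card_image_le.trans (hL c hc)
  set g : V → Finset (V × V) := fun z => T.filter fun cq => Near G z cq.2 with hg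
  have hgc : ∀ z, #(harm G C p z) ≤ #(g z) := by
    intro z
    refine le_trans (card_le_card ?_) (card_image_le (f := Prod.fst))
    intro c hc
    obtain ⟨h1, q, h2, h3⟩ := mem_harm.1 hc
    exact mem_image.2 ⟨(c, q), mem_filter.2 ⟨(hTm c q).2 ⟨h1, h2⟩, h3⟩, rfl⟩
  obtain ⟨F, h1, h2, h3⟩ := packing {z | z ∈ U ∧ t ≤ #(harm G C p z)} g
  refine ⟨F, fun z hz => (h1 hz).1, ?_, fun z hz hzt => ?_⟩
  · have h4 : #F * t ≤ ∑ z ∈ F, #(g z) := by
      rw [← smul_eq_mul]
      exact card_nsmul_le_sum _ _ _ fun z hz => (h1 hz).2.trans (hgc z)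
    rw [← card_biUnion fun z hz z' hz' hne => h2 z hz z' hz' hne] at h4
    refine h4.trans (le_trans (card_le_card ?_) hTc)
    exact biUnion_subset.2 fun z _ => filter_subset _ _
  · obtain ⟨z', hz', hd⟩ := h3 z ⟨hz, hzt⟩ (card_pos.1 (lt_of_lt_of_le ht (hzt.trans (hgc z))))
    obtain ⟨⟨c, q⟩, hq, hq'⟩ := not_disjoint_iff.1 hd
    obtain ⟨hq1, hq2⟩ := mem_filter.1 hq
    obtain ⟨hc, hqc⟩ := (hTm c q).1 hq1
    have h5 : q ∈ nb G U {z'} 1 :=
      mem_nb_of_near (i := 0) rfl Nat.one_pos (hp c hc hqc) (mem_filter.1 hq').2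
    exact ⟨z', hz', mem_nb_of_near h5 (by norm_num) hz hq2.symm⟩

variable (G w) in
/-- a nested sequence of hubs, the later ones having the smaller index -/
structure Sys (h s M : ℕ) (a : ℕ → ℕ) (U : ℕ → Set V) (d : ℕ → HD V) : Prop where
  hub : ∀ j < h, Hub G w (U (j + 1)) (U j) (d j) (j + 2) (s + (j + 2) + 1)
    ((2 * M + 1) * ((2 * a j + 2) * s))
  ins : ∀ j < h, Insep G w (U (j + 1)) (U j) (d j).C (j + 2) (a j * s + M * ((2 * a j + 2) * s)) s

theorem exists_sys (hw : ∀ v, 0 ≤ w v) {K ρ s M : ℕ} {a : ℕ → ℕ} (hns : NoSep G w K (ρ + 1))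
    (hs : 1 ≤ s) (hn : Fintype.card V ≤ s * s)
    (ha : ∀ j, a (j + 1) = a j + (2 * M + 1) * (2 * a j + 2) + (2 * M + 1) * (j + 4)) (h : ℕ) :
    ∀ (U0 : Set V) (K0 : ℕ), Big w U0 → Covd G (bd G U0) K0 ρ → h + 1 ≤ ρ →
      K0 + 2 * (a h * s) + s ≤ K →
      ∃ (U : ℕ → Set V) (d : ℕ → HD V), U h = U0 ∧ Sys G w h s M a U d := by
  classical
  induction h with
  | zero =>
    intro U0 K0 hb _ _ _
    obtain ⟨v, -⟩ := hb.inter hw hb
    exact ⟨fun _ => U0, fun _ => ⟨v, ∅, ∅, fun _ => ∅⟩, rfl, by simp, by simp⟩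
  | succ h ih =>
    intro U0 K0 hb hc hρ hK
    have e1 : a (h + 1) * s =
        a h * s + (2 * M + 1) * ((2 * a h + 2) * s) + (2 * M + 1) * (h + 4) * s := by
      rw [ha h]
      ring
    have e2 : (2 * M + 1) * ((2 * a h + 2) * s) =
        2 * (M * ((2 * a h + 2) * s)) + 2 * (a h * s) + 2 * s := by ring
    obtain ⟨d0, B, hd0, hi0⟩ := exists_hub (r := h + 2) (k := (2 * M + 1) * ((2 * a h + 2) * s))
      (κ := a h * s + M * ((2 * a h + 2) * s)) hw hns hb hc hρ (by omega) hs hn (by omega)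
      (by omega)
    obtain ⟨U, d, hU, hS⟩ := ih B _ hd0.comp.big (hd0.covd hc hρ) (by omega) (by omega)
    refine ⟨Function.update U (h + 1) U0, Function.update d h d0, by simp, fun j hj => ?_,
      fun j hj => ?_⟩
    · rcases Nat.lt_succ_iff_lt_or_eq.1 hj with hj | rfl
      · rw [Function.update_of_ne (by omega), Function.update_of_ne (by omega),
          Function.update_of_ne (by omega)]
        exact hS.hub j hj
      · rw [Function.update_self, Function.update_of_ne (by omega), Function.update_self, hU]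
        exact hd0
    · rcases Nat.lt_succ_iff_lt_or_eq.1 hj with hj | rfl
      · rw [Function.update_of_ne (by omega), Function.update_of_ne (by omega),
          Function.update_of_ne (by omega)]
        exact hS.ins j hj
      · rw [Function.update_self, Function.update_of_ne (by omega), Function.update_self, hU]
        exact hi0

lemma Sys.mono {h s M : ℕ} {a : ℕ → ℕ} {U : ℕ → Set V} {d : ℕ → HD V}
    (hS : Sys G w h s M a U d) {i j : ℕ} (hij : i ≤ j) (hj : j ≤ h) : U i ⊆ U j := by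
  induction hij with
  | refl => exact subset_rfl
  | step _ ih => exact (ih (by omega)).trans fun v hv => ((hS.hub _ hj).comp.sub hv).1

/-- a new short connection from hub `u` to most of the weight -/
theorem access (hw : ∀ v, 0 ≤ w v) {h s M : ℕ} {a : ℕ → ℕ} {U : ℕ → Set V} {d : ℕ → HD V}
    (hs : 1 ≤ s)
    (ha : ∀ j, a (j + 1) = a j + (2 * M + 1) * (2 * a j + 2) + (2 * M + 1) * (j + 4))
    (hS : Sys G w h s M a U d) (hdeg : ∀ z ∈ U h, #(nbr G z) ≤ s) {F : Finset (ℕ × ℕ)}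
    {P : ℕ → Finset V} {PP SS : Finset V}
    (hI : Inv G h U d (fun j => (2 * a j + 2) * s) F P PP SS) (hSS : #SS ≤ M)
    (hPP : #PP + M * s ≤ a 0 * s) {u : ℕ} (hu : u < h) :
    ∃ T : Set V, Big w T ∧ ∀ v ∈ T, ∃ (N π : Finset V) (b x : V), (π : Set V) ⊆ U 0 ∧
      #π ≤ s + 1 ∧ v ∈ π ∧ Conn G (π : Set V) x ∧ G.Adj b x ∧ b ∈ N ∧ #N ≤ s + 2 * h + 4 ∧
      Conn G ((d u).R ∪ N) (d u).x ∧
      (∀ z ∈ N, z ∈ U (u + 1) ∧ z ∉ U u ∧ (z = b ∨ ∀ t ∈ U u, ¬ Near G z t)) ∧
      Good G U d (fun j => (2 * a j + 2) * s) u b ∧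
      (∀ y < h, y ≠ u → Far G (N : Set V) ((d y).R ∪ P y)) ∧
      ∀ y < h, Far G (π : Set V) ((d y).R ∪ P y) := by
  classical
  have hd := hS.hub u hu
  have ht1 : ∀ y, 1 ≤ (2 * a y + 2) * s := fun y => by nlinarith
  have hF : ∀ y, ∃ F : Finset V, y < u → (F : Set V) ⊆ U (u + 1) ∧
      #F ≤ (2 * M + 1) * (y + 4) * s ∧ ∀ z ∈ U (u + 1),
        (2 * a y + 2) * s ≤ #(harm G (d y).C (d y).p z) → z ∈ balls G (U (u + 1)) F 2 := by
    intro y
    by_cases hy : y < u
    · have hy' := hS.hub y (hy.trans hu)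
      obtain ⟨F, h1, h2, h3⟩ := harm_cover (G := G) (U := U (u + 1))
        (fun c hc => (hy'.psub c hc).trans (hS.mono (by omega) hu)) hy'.pcard (ht1 y)
      refine ⟨F, fun _ => ⟨h1, ?_, h3⟩⟩
      have h4 : s + (y + 2) + 1 ≤ (y + 4) * s := by nlinarith
      have h5 := h2.trans (Nat.mul_le_mul hy'.card h4)
      refine Nat.le_of_mul_le_mul_right (h5.trans (le_of_eq ?_)) (ht1 y)
      ring
    · exact ⟨∅, fun h => absurd h hy⟩
  choose Fh hFh using hF
  set Y1 : Finset V := (PP ∪ SS.biUnion (nbr G)).filter fun z => z ∈ U (u + 1) with hY1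
  set Y2 : Finset V := (range u).biUnion fun y => (d y).C ∪ Fh y with hY2
  set Y3 : Finset V := (SS.filter fun z => #(harm G (d u).C (d u).p z) < (2 * a u + 2) * s).biUnion
    (harm G (d u).C (d u).p) with hY3
  set Y : Finset V := Y1 ∪ Y2 ∪ Y3 with hY
  have hYU : (Y : Set V) ⊆ U (u + 1) := by
    intro z hz
    rcases mem_union.1 hz with hz | hz
    · rcases mem_union.1 hz with hz | hz
      · exact (mem_filter.1 hz).2
      · obtain ⟨y, hy, hz⟩ := mem_biUnion.1 hz
        have hy := mem_range.1 hy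
        rcases mem_union.1 hz with hz | hz
        · exact hS.mono (by omega) hu ((hS.hub y (hy.trans hu)).csub hz)
        · exact (hFh y hy).1 hz
    · obtain ⟨y, -, hz⟩ := mem_biUnion.1 hz
      exact hd.csub (mem_harm.1 hz).1
  have hYc : #Y ≤ a u * s + M * ((2 * a u + 2) * s) := by
    have h1 : #Y1 ≤ a 0 * s := by
      have h2 : #(SS.biUnion (nbr G)) ≤ #SS * s :=
        card_biUnion_le_card_mul _ _ _ fun z hz => hdeg z (hI.deg z hz)
      have h3 := Nat.mul_le_mul_right s hSS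
      have h4 := card_union_le PP (SS.biUnion (nbr G))
      have h5 : #Y1 ≤ #(PP ∪ SS.biUnion (nbr G)) := card_filter_le _ _
      omega
    have h2 : ∀ i ≤ u, a 0 * s + #((range i).biUnion fun y => (d y).C ∪ Fh y) ≤ a i * s := by
      intro i
      induction i with
      | zero => simp
      | succ i ih =>
        intro hi
        have h3 := ih (by omega)
        have h4 := (hS.hub i (by omega)).card
        have h5 := (hFh i (by omega)).2.1
        have h6 := card_union_le (d i).C (Fh i)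
        have h7 := card_union_le ((d i).C ∪ Fh i) ((range i).biUnion fun y => (d y).C ∪ Fh y)
        have e1 : a (i + 1) * s =
            a i * s + (2 * M + 1) * ((2 * a i + 2) * s) + (2 * M + 1) * (i + 4) * s := by
          rw [ha i]
          ring
        rw [range_add_one, biUnion_insert]
        omega
    have h3 : #Y3 ≤ M * ((2 * a u + 2) * s) :=
      (card_biUnion_le_card_mul _ _ _ fun z hz => (mem_filter.1 hz).2.le).trans
        (Nat.mul_le_mul_right _ ((card_filter_le _ _).trans hSS))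
    have h4 := h2 u le_rfl
    have h5 := card_union_le (Y1 ∪ Y2) Y3
    have h6 := card_union_le Y1 Y2
    rw [← hY2] at h4
    rw [hY]
    omega
  have hPY : ∀ z ∈ PP, z ∈ U (u + 1) → z ∈ Y := fun z hz hzU =>
    mem_union_left _ (mem_union_left _ (mem_filter.2 ⟨mem_union_left _ hz, hzU⟩))
  have hSY : ∀ z ∈ SS, ∀ t ∈ U (u + 1), G.Adj z t → t ∈ Y := fun z hz t ht hzt =>
    mem_union_left _ (mem_union_left _ (mem_filter.2
      ⟨mem_union_right _ (mem_biUnion.2 ⟨z, hz, mem_nbr.2 hzt⟩), ht⟩))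
  have hCY : ∀ y < u, ∀ c ∈ (d y).C ∪ Fh y, c ∈ Y := fun y hy c hc =>
    mem_union_left _ (mem_union_right _ (mem_biUnion.2 ⟨y, mem_range.2 hy, hc⟩))
  have hnear : ∀ z ∈ Y, ∀ t ∈ U (u + 1), Near G z t → t ∈ balls G (U (u + 1)) Y (u + 2) :=
    fun z hz t ht hzt => ⟨z, hz, mem_nb_of_near (i := 0) rfl (by omega) ht hzt⟩
  obtain ⟨Λ, hΛ, hT⟩ := hS.ins u hu Y hYU hYc
  have hΛ0 : Λ ⊆ U 0 := by
    have key : ∀ i y, y + i = u → Λ ⊆ U y := by
      intro i
      induction i with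
      | zero =>
        rintro y rfl
        exact fun v hv => (hΛ.sub hv).1
      | succ i ih =>
        intro y hy
        refine (hS.hub y (by omega)).comp.subset_of_big hw (fun v hv => ⟨ih (y + 1) (by omega) hv,
          ?_⟩) hΛ.conn hΛ.big
        rintro ⟨c, hc, hv'⟩
        exact (hΛ.sub hv).2 ⟨c, hCY y (by omega) c (mem_union_left _ hc), nb_mono_right _ _
          (by omega) (nb_mono (hS.mono (by omega) hu) subset_rfl _ hv')⟩
    exact key u 0 (by omega)
  refine ⟨_, hT, fun v hv => ?_⟩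
  obtain ⟨x, ⟨hxΛ, b, ⟨c, hc, hbc⟩, hbY, hbx⟩, π, p1, p2, p3, p4⟩ := exists_path_nb s v hv
  have hπ : (π : Set V) ⊆ Λ := by
    intro t ht
    rcases p4 t ht with rfl | ⟨i, -, h⟩
    · exact (nb_subset _ _ _ hv).elim (fun h => h.1) id
    · exact (nb_subset _ _ _ h).elim (fun h => h.1) id
  obtain ⟨c', hc', Q, q1, q2, q3, q4⟩ := exists_path_nb _ b hbc
  obtain rfl : c' = c := hc'
  have hQ : ∀ z ∈ Q, z ∈ balls G (U (u + 1)) (d u).C (u + 2) := fun z hz =>
    (q4 z hz).elim (fun h => h ▸ ⟨c', hc, hbc⟩) fun ⟨i, hi, h⟩ =>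
      ⟨c', hc, nb_mono_right _ _ hi.le h⟩
  have hbU : b ∈ U (u + 1) := balls_subset hd.csub _ (hQ b q2)
  have hbB : b ∉ U u := fun h => (hd.comp.sub h).2 (hQ b q2)
  have hN : ∀ z ∈ Q ∪ (d u).p c', z ∈ U (u + 1) ∧ z ∉ U u ∧
      (z = b ∨ ∀ t ∈ U u, ¬ Near G z t) := by
    intro z hz
    rcases mem_union.1 hz with hz | hz
    · refine ⟨balls_subset hd.csub _ (hQ z hz), fun h => (hd.comp.sub h).2 (hQ z hz), ?_⟩
      exact (q4 z hz).imp id fun ⟨i, hi, h⟩ t ht => not_near_of_inner hd.comp.sub hc hi h ht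
    · exact ⟨hd.psub c' hc hz, fun h => hd.pfar c' hc z hz z h (near_self z),
        Or.inr (hd.pfar c' hc z hz)⟩
  have hbP : ∀ z ∈ PP, z ∈ U (u + 1) → ¬ Near G b z := fun z hz hzU hn =>
    hbY (hnear z (hPY z hz hzU) b hbU hn.symm)
  refine ⟨Q ∪ (d u).p c', π, b, x, hπ.trans hΛ0, p1, p2, p3, hbx, mem_union_left _ q2, ?_, ?_, hN,
    ?_, ?_, ?_⟩
  · have h1 := card_union_le Q ((d u).p c')
    have h2 := hd.pcard c' hc
    omega
  · rw [coe_union, Set.union_comm (Q : Set V), ← Set.union_assoc]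
    exact (hd.pconn c' hc).glue q3 (Or.inr (hd.pself c' hc)) q3.1 (near_self _)
  · intro y hy
    constructor
    · rintro q ⟨e, he, hq⟩ hn
      exact hbY ⟨e, hCY y hy e (mem_union_left _ he), mem_nb_of_near
        (nb_mono (hS.mono (by omega) hu) subset_rfl _ hq) (by omega) hbU hn.symm⟩
    · by_contra hcon
      obtain ⟨e, he, hq⟩ := (hFh y hy).2.2 b hbU (not_lt.1 hcon)
      exact hbY ⟨e, hCY y hy e (mem_union_right _ he), nb_mono_right _ _ (by omega) hq⟩
  · intro y hy hyu z hz q hq hn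
    obtain ⟨hz1, hz2, hz3⟩ := hN z hz
    rcases lt_or_gt_of_ne hyu with hlt | hlt
    · have hsub : U (y + 1) ⊆ U u := hS.mono hlt hu.le
      rcases hq with hq | hq
      · obtain ⟨h1, h2⟩ := (hS.hub y hy).int q hq
        rcases hn with rfl | hn
        · exact hz2 (hsub h1)
        · exact hz2 (hsub (h2 z hn.symm))
      · obtain ⟨h1, h2, -⟩ := hI.loc y hy q hq
        rcases hz3 with rfl | hz3
        · exact hbP q h1 (hS.mono (by omega) hu h2) hn
        · exact hz3 q (hsub h2) hn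
    · have hzy : z ∈ U y := hS.mono hlt hy.le hz1
      rcases hq with hq | hq
      · exact (hS.hub y hy).far q hq z hzy hn.symm
      · obtain ⟨h1, -, h2 | ⟨h2, h3⟩ | h2⟩ := hI.loc y hy q hq
        · rcases hz3 with rfl | hz3
          · exact hbP q h1 (hS.mono (by omega) hu h2) hn
          · exact hz3 q (hS.mono (by omega) hu.le h2) hn
        · rcases mem_union.1 hz with hz | hz
          · exact (h3 u hlt).1 z (hQ z hz) hn.symm
          · exact hbY ⟨c', mem_union_right _ (mem_biUnion.2 ⟨q, mem_filter.2 ⟨h2, (h3 u hlt).2⟩,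
              mem_harm.2 ⟨hc, z, hz, hn.symm⟩⟩), hbc⟩
        · exact h2 z hzy hn.symm
  · intro y hy z hz q hq hn
    have hz0 : z ∈ U 0 := hΛ0 (hπ hz)
    have hzy : z ∈ U y := hS.mono (Nat.zero_le _) hy.le hz0
    have hzu : z ∈ U (u + 1) := hS.mono (Nat.zero_le _) hu hz0
    have hzY := (hΛ.sub (hπ hz)).2
    rcases hq with hq | hq
    · exact (hS.hub y hy).far q hq z hzy hn.symm
    · obtain ⟨h1, -, h2⟩ := hI.loc y hy q hq
      by_cases hqU : q ∈ U (u + 1)
      · exact hzY (hnear q (hPY q h1 hqU) z hzu hn.symm)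
      · rcases h2 with h2 | ⟨h2, -⟩ | h2
        · exact hqU (hS.mono (Nat.zero_le _) hu h2)
        · rcases hn with rfl | hn
          · exact hqU hzu
          · exact hzY (mem_balls_self (hSY q h2 z hzu hn.symm))
        · exact h2 z hzy hn.symm

end Pool.Agent.Lib.MP_4aeae0_co
end

-- part Pool.Agent.Lib.MP_4aeae0_co.HubD
section

/-!
Hubs, part D: joining the hubs along the edges of the excluded graph.
-/

open Finset

namespace Pool.Agent.Lib.MP_4aeae0_co

variable {V : Type} {G : SimpleGraph V}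

lemma Inv.add [DecidableEq V] {h : ℕ} {U : ℕ → Set V} {d : ℕ → HD V} {t : ℕ → ℕ}
    {F F' : Finset (ℕ × ℕ)} {P : ℕ → Finset V} {PP SS PP' SS' N : Finset V}
    (hI : Inv G h U d t F P PP SS) {u : ℕ} (hF : F ⊆ F') (hPP : PP ⊆ PP') (hSS : SS ⊆ SS')
    (h1 : Conn G ((d u).R ∪ P u ∪ N) (d u).x)
    (h2 : ∀ z ∈ N, z ∈ PP' ∧ z ∈ U (u + 1) ∧
      (z ∈ U 0 ∨ (z ∈ SS' ∧ Good G U d t u z) ∨ ∀ b ∈ U u, ¬ Near G z b))
    (h3 : ∀ y < h, y ≠ u → Disjoint (N : Set V) ((d y).R ∪ P y))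
    (h4 : ∀ y < h, y ≠ u → (u, y) ∉ F' → (y, u) ∉ F' → Far G (N : Set V) ((d y).R ∪ P y))
    (h5 : ∀ z ∈ SS', z ∈ U h) :
    Inv G h U d t F' (Function.update P u (P u ∪ N)) PP' SS' := by
  have e1 : (d u).R ∪ (Function.update P u (P u ∪ N) u : Finset V) = (d u).R ∪ P u ∪ N := by
    rw [Function.update_self, coe_union, Set.union_assoc]
  refine ⟨fun y hy => ?_, fun y hy z hz => ?_, fun y hy v hv hyv => ?_,
    fun y hy v hv hyv hF1 hF2 => ?_, h5⟩
  · by_cases hyu : y = u
    · rw [hyu, e1]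
      exact h1
    · rw [Function.update_of_ne hyu]
      exact hI.conn y hy
  · have key : ∀ z ∈ P y, z ∈ PP' ∧ z ∈ U (y + 1) ∧
        (z ∈ U 0 ∨ (z ∈ SS' ∧ Good G U d t y z) ∨ ∀ b ∈ U y, ¬ Near G z b) := by
      intro z hz
      obtain ⟨a1, a2, a3⟩ := hI.loc y hy z hz
      exact ⟨hPP a1, a2, a3.imp id (Or.imp (fun h => ⟨hSS h.1, h.2⟩) id)⟩
    by_cases hyu : y = u
    · subst hyu
      rw [Function.update_self] at hz
      exact (mem_union.1 hz).elim (key z) (h2 z)
    · rw [Function.update_of_ne hyu] at hz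
      exact key z hz
  · by_cases hyu : y = u
    · subst hyu
      rw [e1, Function.update_of_ne hyv.symm]
      exact Set.disjoint_union_left.2 ⟨hI.disj y hy v hv hyv, h3 v hv hyv.symm⟩
    · rw [Function.update_of_ne hyu]
      by_cases hvu : v = u
      · subst hvu
        rw [e1]
        exact Set.disjoint_union_right.2 ⟨hI.disj y hy v hv hyv, (h3 y hy hyv).symm⟩
      · rw [Function.update_of_ne hvu]
        exact hI.disj y hy v hv hyv
  · have hold := hI.far y hy v hv hyv (fun h => hF1 (hF h)) fun h => hF2 (hF h)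
    by_cases hyu : y = u
    · subst hyu
      rw [e1, Function.update_of_ne hyv.symm]
      exact hold.union (h4 v hv hyv.symm hF1 hF2)
    · rw [Function.update_of_ne hyu]
      by_cases hvu : v = u
      · subst hvu
        rw [e1]
        exact (hold.symm.union (h4 y hy hyv hF2 hF1)).symm
      · rw [Function.update_of_ne hvu]
        exact hold

variable [Fintype V] {w : V → ℝ}

theorem phase_two (hw : ∀ v, 0 ≤ w v) {h s M m : ℕ} {a : ℕ → ℕ} {U : ℕ → Set V} {d : ℕ → HD V}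
    (hs : 1 ≤ s)
    (ha : ∀ j, a (j + 1) = a j + (2 * M + 1) * (2 * a j + 2) + (2 * M + 1) * (j + 4))
    (hS : Sys G w h s M a U d) (hdeg : ∀ z ∈ U h, #(nbr G z) ≤ s) (hM : 2 * m ≤ M)
    (ha0 : m * (4 * h + 14) + M ≤ a 0) (F : Finset (ℕ × ℕ)) :
    (∀ q ∈ F, q.2 < q.1 ∧ q.1 < h) → #F ≤ m → ∃ (P : ℕ → Finset V) (PP SS : Finset V),
      Inv G h U d (fun j => (2 * a j + 2) * s) F P PP SS ∧ #PP ≤ #F * ((4 * h + 14) * s) ∧
      #SS ≤ 2 * #F ∧ ∀ q ∈ F, ∃ x ∈ (d q.1).R ∪ P q.1, ∃ y ∈ (d q.2).R ∪ P q.2, G.Adj x y := by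
  classical
  induction F using Finset.induction_on with
  | empty =>
    intro _ _
    have key : ∀ u < h, ∀ v < h, u ≠ v → Far G (d u).R (d v).R := by
      have key' : ∀ u < h, ∀ v < u, Far G (d u).R (d v).R := fun u hu v hv =>
        (hS.hub u hu).far.mono subset_rfl fun z hz =>
          hS.mono hv hu.le ((hS.hub v (hv.trans hu)).int z hz).1
      intro u hu v hv huv
      rcases lt_or_gt_of_ne huv with hlt | hlt
      · exact (key' v hv u hlt).symm
      · exact key' u hu v hlt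
    refine ⟨fun _ => ∅, ∅, ∅, ⟨fun u hu => ?_, by simp, fun u hu v hv huv => ?_,
      fun u hu v hv huv _ _ => ?_, by simp⟩, by simp, by simp, by simp⟩
    · simpa using (hS.hub u hu).conn
    · simpa using (key u hu v hv huv).disjoint
    · simpa using key u hu v hv huv
  | insert q F hq ih =>
    intro hF hc
    rw [card_insert_of_notMem hq] at hc ⊢
    obtain ⟨P, PP, SS, hI, c1, c2, hadj⟩ :=
      ih (fun q' hq' => hF q' (mem_insert_of_mem hq')) (by omega)
    obtain ⟨u, v⟩ := q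
    obtain ⟨hvu, hu⟩ : v < u ∧ u < h := hF _ (mem_insert_self _ _)
    have hv : v < h := hvu.trans hu
    have hSS : #SS ≤ M := by omega
    have hPP : #PP + M * s ≤ a 0 * s := by
      have h1 : #F * ((4 * h + 14) * s) ≤ m * ((4 * h + 14) * s) :=
        Nat.mul_le_mul_right _ (by omega)
      have h2 := Nat.mul_le_mul_right s ha0
      rw [add_mul, mul_assoc] at h2
      omega
    obtain ⟨T1, hT1, H1⟩ := access hw hs ha hS hdeg hI hSS hPP hu
    obtain ⟨T2, hT2, H2⟩ := access hw hs ha hS hdeg hI hSS hPP hv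
    obtain ⟨v0, hv1, hv2⟩ := hT1.inter hw hT2
    obtain ⟨N1, π1, b1, x1, a1, a2, a3, a4, a5, a6, a7, a8, a9, a10, a11, a12⟩ := H1 v0 hv1
    obtain ⟨N2, π2, b2, x2, e1, e2, e3, e4, e5, e6, e7, e8, e9, e10, e11, e12⟩ := H2 v0 hv2
    have hun : ∀ (R A B : Set V) (x : V), Conn G (R ∪ A) x → Conn G (R ∪ B) x →
        Conn G (R ∪ A ∪ B) x := by
      intro R A B x h1 h2
      have := h1.union h2
      rwa [← Set.union_union_distrib_left, ← Set.union_assoc] at this
    have hI1 : Inv G h U d (fun j => (2 * a j + 2) * s) (insert (u, v) F)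
        (Function.update P u (P u ∪ N1)) (PP ∪ N1) (insert b1 SS) := by
      refine hI.add (subset_insert _ _) subset_union_left (subset_insert _ _)
        (hun _ _ _ _ (hI.conn u hu) a8) (fun z hz => ⟨mem_union_right _ hz, (a9 z hz).1, ?_⟩)
        (fun y hy hyu => (a11 y hy hyu).disjoint) (fun y hy hyu _ _ => a11 y hy hyu) fun z hz => ?_
      · rcases (a9 z hz).2.2 with rfl | h1
        · exact Or.inr (Or.inl ⟨mem_insert_self _ _, a10⟩)
        · exact Or.inr (Or.inr h1)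
      · rcases mem_insert.1 hz with rfl | hz
        · exact hS.mono hu le_rfl (a9 z a6).1
        · exact hI.deg z hz
    have hPv : Function.update P u (P u ∪ N1) v = P v := Function.update_of_ne hvu.ne _ _
    have hEv : ∀ z ∈ N2 ∪ π2 ∪ π1, z ∈ U (v + 1) := by
      intro z hz
      rcases mem_union.1 hz with hz | hz
      · rcases mem_union.1 hz with hz | hz
        · exact (e9 z hz).1
        · exact hS.mono (Nat.zero_le _) hv (e1 hz)
      · exact hS.mono (Nat.zero_le _) hv (a1 hz)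
    have hEfar : ∀ y < h, y ≠ v → Far G ((N2 ∪ π2 ∪ π1 : Finset V) : Set V) ((d y).R ∪ P y) := by
      intro y hy hyv
      rw [coe_union, coe_union]
      exact ((e11 y hy hyv).union (e12 y hy)).union (a12 y hy)
    have hI2 := hI1.add (u := v) (N := N2 ∪ π2 ∪ π1) (F' := insert (u, v) F)
      (PP' := PP ∪ N1 ∪ (N2 ∪ π2 ∪ π1)) (SS' := insert b2 (insert b1 SS)) subset_rfl
      subset_union_left (subset_insert _ _) ?_ (fun z hz => ⟨mem_union_right _ hz, hEv z hz, ?_⟩)
      (fun y hy hyv => ?_) (fun y hy hyv _ hF2 => ?_) fun z hz => ?_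
    · refine ⟨_, _, _, hI2, ?_, ?_, fun q hq' => ?_⟩
      · have h1 := card_union_le (PP ∪ N1) (N2 ∪ π2 ∪ π1)
        have h2 := card_union_le PP N1
        have h3 := card_union_le (N2 ∪ π2) π1
        have h4 := card_union_le N2 π2
        have h5 : 4 * s + 4 * h + 10 ≤ (4 * h + 14) * s := by nlinarith
        rw [add_mul, one_mul]
        omega
      · have h1 := card_insert_le b2 (insert b1 SS)
        have h2 := card_insert_le b1 SS
        omega
      · have hsub : ∀ y, P y ⊆ Function.update (Function.update P u (P u ∪ N1)) v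
            (Function.update P u (P u ∪ N1) v ∪ (N2 ∪ π2 ∪ π1)) y := by
          intro y
          by_cases hyv : y = v
          · rw [hyv, Function.update_self, hPv]
            exact subset_union_left
          · rw [Function.update_of_ne hyv]
            by_cases hyu : y = u
            · rw [hyu, Function.update_self]
              exact subset_union_left
            · rw [Function.update_of_ne hyu]
        rcases mem_insert.1 hq' with rfl | hq'
        · refine ⟨b1, Or.inr ?_, x1, Or.inr ?_, a5⟩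
          · rw [Function.update_of_ne hvu.ne', Function.update_self]
            exact mem_union_right _ a6
          · rw [Function.update_self]
            exact mem_union_right _ (mem_union_right _ a4.1)
        · obtain ⟨x, hx, y, hy, hxy⟩ := hadj q hq'
          exact ⟨x, hx.imp id fun h => hsub _ h, y, hy.imp id fun h => hsub _ h, hxy⟩
    · rw [hPv]
      refine hun _ _ _ _ (hI.conn v hv) ?_
      rw [coe_union, coe_union, ← Set.union_assoc, ← Set.union_assoc]
      exact (e8.glue e4 (Or.inr e6) e4.1 (Or.inr e5)).glue a4 (Or.inr e3) a3 (near_self _)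
    · rcases mem_union.1 hz with hz | hz
      · rcases mem_union.1 hz with hz | hz
        · rcases (e9 z hz).2.2 with rfl | h1
          · exact Or.inr (Or.inl ⟨mem_insert_self _ _, e10⟩)
          · exact Or.inr (Or.inr h1)
        · exact Or.inl (e1 hz)
      · exact Or.inl (a1 hz)
    · by_cases hyu : y = u
      · subst hyu
        rw [Function.update_self, coe_union (P y), ← Set.union_assoc]
        refine Set.disjoint_union_right.2 ⟨(hEfar y hy hyv).disjoint, ?_⟩
        exact Set.disjoint_left.2 fun z hz hz' => (a9 z hz').2.1 (hS.mono hvu hu.le (hEv z hz))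
      · rw [Function.update_of_ne hyu]
        exact (hEfar y hy hyv).disjoint
    · have hyu : y ≠ u := fun h => hF2 (h ▸ mem_insert_self _ _)
      rw [Function.update_of_ne hyu]
      exact hEfar y hy hyv
    · rcases mem_insert.1 hz with rfl | hz
      · exact hS.mono hv le_rfl (e9 z e6).1
      · exact hI1.deg z hz

/-- the budget sequence -/
def budget (a0 M : ℕ) : ℕ → ℕ
  | 0 => a0
  | j + 1 => budget a0 M j + (2 * M + 1) * (2 * budget a0 M j + 2) + (2 * M + 1) * (j + 4)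

/-- without a covered separator every pattern on `h` hubs appears as an induced minor -/
theorem exists_model (hw : ∀ v, 0 ≤ w v) {h s : ℕ} (hs : 1 ≤ s) (hn : Fintype.card V ≤ s * s)
    (hns : NoSep G w
      ((2 * budget (h * h * (4 * h + 14) + 2 * (h * h)) (2 * (h * h)) h + 2) * s) (h + 3))
    (F : Finset (ℕ × ℕ)) (hF : ∀ q ∈ F, q.2 < q.1 ∧ q.1 < h) :
    ∃ B : ℕ → Set V, (∀ u < h, (G.induce (B u)).Connected) ∧
      (∀ u < h, ∀ v < h, u ≠ v → Disjoint (B u) (B v)) ∧
      (∀ u < h, ∀ v < h, u ≠ v → (u, v) ∉ F → (v, u) ∉ F → Far G (B u) (B v)) ∧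
      ∀ q ∈ F, ∃ x ∈ B q.1, ∃ y ∈ B q.2, G.Adj x y := by
  classical
  set a := budget (h * h * (4 * h + 14) + 2 * (h * h)) (2 * (h * h)) with ha
  have hK : (2 * a h + 2) * s = s + 2 * (a h * s) + s := by ring
  have hX : Covd G (bd G Set.univ ∪ {v | s ≤ #(nbr G v)}) s (h + 2) :=
    (covd_high hs hn).mono (Set.union_subset (fun v hv => absurd (Set.mem_univ v) hv.1) subset_rfl)
      le_rfl (by omega)
  have hbig : Big w (Set.univ : Set V) := by
    obtain ⟨T, -, -, hT⟩ := hns ∅ ⟨∅, by simp, by simp⟩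
    exact hT.mono hw (Set.subset_univ _)
  obtain ⟨U0, hU0⟩ := exists_comp hw hns hbig (hX.mono subset_rfl (by omega) (by omega))
  obtain ⟨U, d, hU, hS⟩ := exists_sys (ρ := h + 2) (M := 2 * (h * h)) (a := a) hw hns hs hn
    (fun _ => rfl) h U0 s hU0.big (hX.mono hU0.bd_subset le_rfl le_rfl) (by omega) hK.ge
  have hdeg : ∀ z ∈ U h, #(nbr G z) ≤ s := fun z hz =>
    (not_le.1 (hU0.sub (hU ▸ hz)).2).le
  have hFc : #F ≤ h * h := by
    have : F ⊆ range h ×ˢ range h := fun q hq =>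
      mem_product.2 ⟨mem_range.2 (hF q hq).2, mem_range.2 ((hF q hq).1.trans (hF q hq).2)⟩
    simpa using card_le_card this
  obtain ⟨P, PP, SS, hI, -, -, hadj⟩ :=
    phase_two (m := h * h) hw hs (fun _ => rfl) hS hdeg le_rfl le_rfl F hF hFc
  exact ⟨fun u => (d u).R ∪ P u, fun u hu => (hI.conn u hu).connected, hI.disj, hI.far, hadj⟩

end Pool.Agent.Lib.MP_4aeae0_co
end
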