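import Pool.Agent.Lib.MP_4aeae0_co.Basic

/-!
The induced Plotkin-Rao-Smith argument.
-/

open Finset

namespace Pool.Agent.Lib.MP_4aeae0_co

variable {V : Type} [Fintype V] (G : SimpleGraph V) (w : V → ℝ)

/-- a balanced separator dominated by at most `K` vertices -/
def Sep (K : ℕ) : Prop :=
  ∃ S C : Finset V, #C ≤ K ∧ (∀ x ∈ S, ∃ v ∈ C, Near G v x) ∧
    ∀ T : Finset V, Disjoint T S → (G.induce (T : Set V)).Connected →
      ∑ v ∈ T, w v ≤ (∑ v, w v) / 2

/-- `v` is dominated by a piece or by `J` -/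
def Cov (X : Finset (Finset V)) (J : Finset V) (v : V) : Prop :=
  (∃ P ∈ X, ∃ a ∈ P, Near G a v) ∨ ∃ a ∈ J, Near G a v

/-- an induced model of a subdivided clique -/
structure Model (X : Finset (Finset V)) (y : Finset V → Finset V → V) : Prop where
  conn : ∀ P ∈ X, ∃ x, Conn G (P : Set V) x
  sep : ∀ P ∈ X, ∀ Q ∈ X, P ≠ Q → ∀ a ∈ P, ∀ b ∈ Q, ¬ Near G a b
  symm : ∀ P Q, y P Q = y Q P
  adj : ∀ P ∈ X, ∀ Q ∈ X, P ≠ Q → ∃ a ∈ P, G.Adj a (y P Q)
  ysep : ∀ P ∈ X, ∀ Q ∈ X, ∀ R ∈ X, P ≠ Q → R ≠ P → R ≠ Q → ∀ a ∈ R, ¬ Near G a (y P Q)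
  yy : ∀ P ∈ X, ∀ Q ∈ X, ∀ R ∈ X, ∀ S ∈ X, P ≠ Q → R ≠ S → R ≠ P → R ≠ Q →
    ¬ Near G (y R S) (y P Q)

/-- the invariant -/
structure Inv (h l s : ℕ) (X : Finset (Finset V)) (y : Finset V → Finset V → V)
    (J B : Finset V) : Prop where
  model : Model G X y
  size : ∀ P ∈ X, #P ≤ s
  yJ : ∀ P ∈ X, ∀ Q ∈ X, P ≠ Q → y P Q ∈ J
  Bsep : ∀ P ∈ X, ∀ a ∈ P, ∀ b ∈ B, ¬ Near G a b
  By : ∀ P ∈ X, ∀ Q ∈ X, P ≠ Q → ∀ b ∈ B, ¬ Near G (y P Q) b
  acc : l * (#J + h * #X) + (2 * h + 1) * #B ≤ (2 * h + 1) * Fintype.card V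
  card : #X ≤ h

variable {G w}

omit [Fintype V] in
lemma Cov.mono {X X' : Finset (Finset V)} {J J' : Finset V} (hX : X ⊆ X') (hJ : J ⊆ J') {v : V}
    (h : Cov G X J v) : Cov G X' J' v :=
  h.imp (fun ⟨P, hP, h⟩ => ⟨P, hX hP, h⟩) fun ⟨a, ha, h⟩ => ⟨a, hJ ha, h⟩

omit [Fintype V] in
lemma Model.mono {X X' : Finset (Finset V)} {y : Finset V → Finset V → V} (M : Model G X y)
    (h : X' ⊆ X) : Model G X' y :=
  ⟨fun P hP => M.conn P (h hP), fun P hP Q hQ => M.sep P (h hP) Q (h hQ), M.symm,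
    fun P hP Q hQ => M.adj P (h hP) Q (h hQ),
    fun P hP Q hQ R hR => M.ysep P (h hP) Q (h hQ) R (h hR),
    fun P hP Q hQ R hR S hS => M.yy P (h hP) Q (h hQ) R (h hR) S (h hS)⟩

omit [Fintype V] in
/-- a large model gives an induced minor -/
lemma Model.induced_minor {W : Type} [Fintype W] (H : SimpleGraph W) {X : Finset (Finset V)}
    {y : Finset V → Finset V → V} (M : Model G X y) (hX : Fintype.card W ≤ #X) :
    ∃ B : W → Set V, (∀ a, (G.induce (B a)).Connected) ∧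
      (∀ a b, a ≠ b → Disjoint (B a) (B b)) ∧
      (∀ a b, a ≠ b → (H.Adj a b ↔ ∃ x ∈ B a, ∃ y ∈ B b, G.Adj x y)) := by
  classical
  obtain ⟨g⟩ : Nonempty (W ↪ X) := Function.Embedding.nonempty_of_card_le (by simpa using hX)
  let f : W → Finset V := fun a => g a
  have hf : ∀ a, f a ∈ X := fun a => (g a).2
  have hne : ∀ {a b}, a ≠ b → f a ≠ f b := fun h h' => h (g.injective (Subtype.ext h'))
  let e := Fintype.equivFin W
  let Y : W → Set V := fun a => {v | ∃ b, H.Adj a b ∧ e a < e b ∧ v = y (f a) (f b)}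
  -- no subdivision vertex lies in a piece
  have hyP : ∀ a b c, a ≠ b → y (f a) (f b) ∉ f c := by
    intro a b c hab hc
    by_cases hca : c = a
    · subst hca
      obtain ⟨t, ht, hadj⟩ := M.adj _ (hf b) _ (hf c) (hne hab.symm)
      rw [M.symm] at hadj
      exact M.sep _ (hf b) _ (hf c) (hne hab.symm) t ht _ hc (Or.inr hadj)
    · by_cases hcb : c = b
      · subst hcb
        obtain ⟨t, ht, hadj⟩ := M.adj _ (hf a) _ (hf c) (hne hab)
        exact M.sep _ (hf a) _ (hf c) (hne hab) t ht _ hc (Or.inr hadj)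
      · exact M.ysep _ (hf a) _ (hf b) _ (hf c) (hne hab) (hne hca) (hne hcb) _ hc (near_self _)
  -- subdivision vertices of different branch sets do not touch
  have hYY : ∀ a b, a ≠ b → ∀ u ∈ Y a, ∀ v ∈ Y b, ¬ Near G u v := by
    rintro a b hab _ ⟨c, hac, hlt, rfl⟩ _ ⟨d, hbd, hlt', rfl⟩
    by_cases had : a = d
    · subst had
      have hbc : b ≠ c := by
        rintro rfl
        exact lt_asymm hlt hlt'
      intro hn
      exact M.yy _ (hf a) _ (hf c) _ (hf b) _ (hf a) (hne hac.ne) (hne hbd.ne) (hne hab.symm)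
        (hne hbc) hn.symm
    · exact M.yy _ (hf b) _ (hf d) _ (hf a) _ (hf c) (hne hbd.ne) (hne hac.ne) (hne hab) (hne had)
  have hYP : ∀ a b, a ≠ b → ∀ u ∈ Y a, ∀ v ∈ f b, G.Adj u v → H.Adj a b := by
    rintro a b hab _ ⟨c, hac, -, rfl⟩ v hv hadj
    by_cases hbc : b = c
    · exact hbc ▸ hac
    · exact absurd (Or.inr hadj.symm)
        (M.ysep _ (hf a) _ (hf c) _ (hf b) (hne hac.ne) (hne hab.symm) (hne hbc) v hv)
  refine ⟨fun a => (f a : Set V) ∪ Y a, fun a => ?_, fun a b hab => ?_, fun a b hab => ⟨?_, ?_⟩⟩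
  · obtain ⟨x, hx⟩ := M.conn _ (hf a)
    refine (hx.extend ?_).connected
    rintro _ ⟨b, hab, -, rfl⟩
    exact M.adj _ (hf a) _ (hf b) (hne hab.ne)
  · rw [Set.disjoint_left]
    rintro v (h1 | h1) (h2 | h2)
    · exact M.sep _ (hf a) _ (hf b) (hne hab) v h1 v h2 (near_self _)
    · obtain ⟨c, hbc, -, rfl⟩ := h2
      exact hyP b c a hbc.ne h1
    · obtain ⟨c, hac, -, rfl⟩ := h1
      exact hyP a c b hac.ne h2
    · exact hYY a b hab v h1 v h2 (near_self _)
  · intro hadj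
    rcases lt_or_gt_of_ne (e.injective.ne hab) with hlt | hlt
    · obtain ⟨t, ht, h⟩ := M.adj _ (hf b) _ (hf a) (hne hab.symm)
      rw [M.symm] at h
      exact ⟨_, Or.inr ⟨b, hadj, hlt, rfl⟩, t, Or.inl ht, h.symm⟩
    · obtain ⟨t, ht, h⟩ := M.adj _ (hf a) _ (hf b) (hne hab)
      rw [M.symm] at h
      exact ⟨t, Or.inl ht, _, Or.inr ⟨a, hadj.symm, hlt, rfl⟩, h⟩
  · rintro ⟨u, h1 | h1, v, h2 | h2, huv⟩
    · exact absurd (Or.inr huv) (M.sep _ (hf a) _ (hf b) (hne hab) u h1 v h2)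
    · exact (hYP b a hab.symm v h2 u h1 huv.symm).symm
    · exact hYP a b hab u h1 v h2 huv
    · exact absurd (Or.inr huv) (hYY a b hab u h1 v h2)

lemma finish (hw : ∀ v, 0 ≤ w v) {B B' D C : Finset V} {K : ℕ} (hC : #C ≤ K)
    (hB : (∑ v, w v) / 2 < ∑ v ∈ B, w v) (hB' : ∑ v ∈ B', w v ≤ (∑ v, w v) / 2)
    (hD : ∑ v ∈ D, w v ≤ (∑ v, w v) / 2) (hDB : ∀ a ∈ D, ∀ b ∈ B', ¬ G.Adj a b)
    (h1 : ∀ v ∉ B, ∀ b ∈ B, G.Adj v b → ∃ a ∈ C, Near G a v)
    (h2 : ∀ v ∈ B, v ∉ B' → v ∉ D → ∃ a ∈ C, Near G a v) : Sep G w K := by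
  classical
  refine ⟨univ.filter fun v => (v ∉ B ∧ ∃ b ∈ B, G.Adj v b) ∨ (v ∈ B ∧ v ∉ B' ∧ v ∉ D), C, hC,
    fun x hx => ?_, fun T hT hc => ?_⟩
  · rcases (mem_filter.1 hx).2 with ⟨h, b, hb, hadj⟩ | ⟨h, h', h''⟩
    · exact h1 x h b hb hadj
    · exact h2 x h h' h''
  · have hT' : ∀ v ∈ T, ¬ ((v ∉ B ∧ ∃ b ∈ B, G.Adj v b) ∨ (v ∈ B ∧ v ∉ B' ∧ v ∉ D)) :=
      fun v hv h => disjoint_left.1 hT hv (mem_filter.2 ⟨mem_univ _, h⟩)
    have hle : ∀ A : Finset V, T ⊆ A → ∑ v ∈ T, w v ≤ ∑ v ∈ A, w v := fun A hA =>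
      sum_le_sum_of_subset_of_nonneg hA fun v _ _ => hw v
    rcases subset_or_disjoint (A := (B : Set V)) hc (fun a _ b hb hab ha => by
      by_contra hbB
      exact hT' b hb (Or.inl ⟨hbB, a, ha, hab.symm⟩)) with h | h
    · have hBD : ∀ v ∈ T, v ∉ D → v ∈ B' := fun v hv hD => by
        by_contra hB'
        exact hT' v hv (Or.inr ⟨h hv, hB', hD⟩)
      rcases subset_or_disjoint (A := (D : Set V)) hc (fun a _ b hb hab ha => by
        by_contra hbD
        exact hDB a ha b (hBD b hb hbD) hab) with h' | h'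
      · exact (hle D h').trans hD
      · exact (hle B' fun v hv => hBD v hv (Set.disjoint_left.1 h' hv)).trans hB'
    · have h3 : Disjoint T B := disjoint_coe.1 h
      have h4 := sum_union (f := w) h3
      have h5 : ∑ v ∈ T ∪ B, w v ≤ ∑ v, w v :=
        sum_le_sum_of_subset_of_nonneg (subset_univ _) fun v _ _ => hw v
      linarith

variable (G w) in
/-- the outcome of one step -/
def Next (h l s : ℕ) (X : Finset (Finset V)) (B : Finset V) : Prop :=
  ∃ (X' : Finset (Finset V)) (y' : Finset V → Finset V → V) (J' B' D : Finset V),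
    Inv G h l s X' y' J' B' ∧ 2 * #B' + #X' < 2 * #B + #X ∧ B' ⊆ B ∧
    ∑ v ∈ D, w v ≤ (∑ v, w v) / 2 ∧ (∀ a ∈ D, ∀ b ∈ B', ¬ G.Adj a b) ∧
    (∀ v ∉ B, ∀ b ∈ B, G.Adj v b → Cov G X' J' v) ∧
    (∀ v ∈ B, v ∉ B' → v ∉ D → Cov G X' J' v)

/-- cutting off a light ball -/
lemma step_cut (hw : ∀ v, 0 ≤ w v) {h l s m : ℕ} {X : Finset (Finset V)}
    {y : Finset V → Finset V → V} {J B : Finset V} (I : Inv G h l s X y J B)
    (hb : ∀ v ∉ B, ∀ b ∈ B, G.Adj v b → Cov G X J v) (hl : 1 ≤ l) (hm : #B < 2 ^ m)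
    {x : V} (hx : x ∈ B) (hlight : ∑ v ∈ ball G B x (l * m), w v ≤ (∑ v, w v) / 2) :
    Next G w h l s X B := by
  classical
  obtain ⟨j, hj, hsp⟩ := exists_sparse_layer (G := G) hx hl hm
  have hs1 := ball_subset_succ (G := G) B x j
  have hs2 := ball_subset (G := G) hx (j + 1)
  have hc1 := card_sdiff_add_card_eq_card hs1
  have hc2 := card_sdiff_add_card_eq_card hs2
  have hc3 := card_union_le J (ball G B x (j + 1) \ ball G B x j)
  have hc4 : 0 < #(ball G B x (j + 1)) := card_pos.2 ⟨x, self_mem_ball B x _⟩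
  refine ⟨X, y, J ∪ (ball G B x (j + 1) \ ball G B x j), B \ ball G B x (j + 1), ball G B x j,
    ⟨I.model, I.size, fun P hP Q hQ hPQ => mem_union_left _ (I.yJ P hP Q hQ hPQ),
      fun P hP a ha b hb => I.Bsep P hP a ha b (mem_sdiff.1 hb).1,
      fun P hP Q hQ hPQ b hb => I.By P hP Q hQ hPQ b (mem_sdiff.1 hb).1, ?_, I.card⟩,
    by omega, sdiff_subset, ?_, ?_, ?_, ?_⟩
  · have := I.acc
    have h1 := Nat.mul_le_mul_left l hc3
    have h2 : l * #(ball G B x (j + 1) \ ball G B x j) ≤ #(ball G B x (j + 1)) := by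
      have := card_le_card hs1
      nlinarith
    nlinarith
  · exact (sum_le_sum_of_subset_of_nonneg (ball_mono B x hj.le) fun v _ _ => hw v).trans hlight
  · intro a ha b hb hab
    exact (mem_sdiff.1 hb).2 (mem_ball_succ.2 (Or.inr ⟨(mem_sdiff.1 hb).1, a, ha, hab⟩))
  · exact fun v hv b hbB hadj => (hb v hv b hbB hadj).mono subset_rfl subset_union_left
  · intro v hv h1 h2
    have h3 : v ∈ ball G B x (j + 1) := by
      by_contra h3
      exact h1 (mem_sdiff.2 ⟨hv, h3⟩)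
    exact Or.inr ⟨v, mem_union_right _ (mem_sdiff.2 ⟨h3, h2⟩), near_self _⟩

variable (G) in
/-- private boundary vertices of a piece -/
def Good (X : Finset (Finset V)) (y : Finset V → Finset V → V) (B P : Finset V) (v : V) : Prop :=
  (∃ b ∈ B, G.Adj v b) ∧ (∃ a ∈ P, G.Adj a v) ∧ (∀ R ∈ X, R ≠ P → ∀ a ∈ R, ¬ Near G a v) ∧
    ∀ R ∈ X, ∀ S ∈ X, R ≠ S → ¬ Near G (y R S) v

/-- dropping a piece -/
lemma step_drop (hw : ∀ v, 0 ≤ w v) {h l s : ℕ} {X : Finset (Finset V)}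
    {y : Finset V → Finset V → V} {J B : Finset V} (I : Inv G h l s X y J B)
    (hb : ∀ v ∉ B, ∀ b ∈ B, G.Adj v b → Cov G X J v) {P : Finset V} (hP : P ∈ X)
    {U : Finset V} (hU : #U ≤ #X) (hgood : ∀ v, Good G X y B P v → ∃ u ∈ U, Near G u v) :
    Next G w h l s X B := by
  classical
  have he := card_erase_add_one hP
  have hs := erase_subset P X
  refine ⟨X.erase P, y, J ∪ U, B, ∅,
    ⟨I.model.mono hs, fun Q hQ => I.size Q (hs hQ),
      fun R hR Q hQ hRQ => mem_union_left _ (I.yJ R (hs hR) Q (hs hQ) hRQ),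
      fun R hR => I.Bsep R (hs hR), fun R hR Q hQ => I.By R (hs hR) Q (hs hQ), ?_,
      (card_le_card hs).trans I.card⟩,
    by omega, subset_rfl, ?_, by simp, ?_, fun v hv h1 => absurd hv h1⟩
  · have := I.acc
    have h1 : #(J ∪ U) + h * #(X.erase P) ≤ #J + h * #X := by
      have := card_union_le J U
      have := I.card
      rw [← he]
      nlinarith
    have h2 := Nat.mul_le_mul_left l h1
    omega
  · rw [sum_empty]
    exact div_nonneg (sum_nonneg fun v _ => hw v) zero_le_two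
  · intro v hv b hbB hadj
    by_contra hcov
    have c1 : ∀ R ∈ X, R ≠ P → ∀ a ∈ R, ¬ Near G a v := fun R hR hRP a ha hn =>
      hcov (Or.inl ⟨R, mem_erase.2 ⟨hRP, hR⟩, a, ha, hn⟩)
    have c2 : ∀ a ∈ J, ¬ Near G a v := fun a ha hn => hcov (Or.inr ⟨a, mem_union_left _ ha, hn⟩)
    rcases hb v hv b hbB hadj with ⟨R, hR, a, ha, hn⟩ | ⟨a, ha, hn⟩
    · by_cases hRP : R = P
      · subst hRP
        have hav : G.Adj a v := by
          rcases hn with rfl | hn
          · exact absurd (Or.inr hadj) (I.Bsep R hR a ha b hbB)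
          · exact hn
        obtain ⟨u, hu, hn⟩ := hgood v ⟨⟨b, hbB, hadj⟩, ⟨a, ha, hav⟩, c1,
          fun R hR S hS hRS => c2 _ (I.yJ R hR S hS hRS)⟩
        exact hcov (Or.inr ⟨u, mem_union_right _ hu, hn⟩)
      · exact c1 R hR hRP a ha hn
    · exact c2 a ha hn

/-- adding a piece -/
lemma step_add (hw : ∀ v, 0 ≤ w v) {h l s r : ℕ} {X : Finset (Finset V)}
    {y : Finset V → Finset V → V} {J B : Finset V} (I : Inv G h l s X y J B)
    (hb : ∀ v ∉ B, ∀ b ∈ B, G.Adj v b → Cov G X J v) (hX : #X < h) (hl : 1 ≤ l) (hlB : l ≤ #B)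
    {x : V} (hx : x ∈ B) (hr : B ⊆ ball G B x r) (hs : l + h * (r + 1) ≤ s) {z : Finset V → V}
    (hz : ∀ P ∈ X, Good G X y B P (z P))
    (hzz : ∀ P ∈ X, ∀ Q ∈ X, P ≠ Q → ¬ Near G (z P) (z Q)) :
    Next G w h l s X B := by
  classical
  have hu : ∀ P : Finset V, ∃ u, P ∈ X → u ∈ B ∧ G.Adj (z P) u := by
    intro P
    by_cases hP : P ∈ X
    · obtain ⟨u, hu, h⟩ := (hz P hP).1
      exact ⟨u, fun _ => ⟨hu, h⟩⟩
    · exact ⟨x, fun h => absurd h hP⟩
  choose u hu using hu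
  obtain ⟨T, hTB, hT1, hT2, hTu, hTc⟩ := exists_tree hx hr hl hlB (X.image u) (by
    intro v hv
    obtain ⟨P, hP, rfl⟩ := mem_image.1 hv
    exact (hu P hP).1)
  have hxT : x ∈ T := hTc.1
  have hne : ∀ P ∈ X, P ≠ T := by
    rintro P hP rfl
    exact I.Bsep P hP x hxT x hx (near_self _)
  have hTX : T ∉ X := fun h => hne T h rfl
  let y' : Finset V → Finset V → V := fun P Q => if P = T then z Q else if Q = T then z P else y P Q
  have e1 : ∀ Q, y' T Q = z Q := fun Q => by simp [y']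
  have e2 : ∀ P ∈ X, y' P T = z P := fun P hP => by simp [y', hne P hP]
  have e3 : ∀ P ∈ X, ∀ Q ∈ X, y' P Q = y P Q := fun P hP Q hQ => by
    simp [y', hne P hP, hne Q hQ]
  let B' := B.filter fun v => (∀ a ∈ T, ¬ Near G a v) ∧ ∀ P ∈ X, ¬ Near G (z P) v
  have hB' : B' ⊆ B := filter_subset _ _
  have hcard : #B' + l ≤ #B := by
    have h1 : Disjoint B' T := disjoint_left.2 fun v hv hvT =>
      (mem_filter.1 hv).2.1 v hvT (near_self _)
    have h2 := card_le_card (union_subset hB' hTB)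
    rw [card_union_of_disjoint h1] at h2
    omega
  have hins := card_insert_of_notMem hTX
  refine ⟨insert T X, y', J ∪ X.image z, B', ∅, ⟨⟨?_, ?_, ?_, ?_, ?_, ?_⟩, ?_, ?_, ?_, ?_, ?_,
    by omega⟩, by omega, hB', ?_, by simp, ?_, ?_⟩
  · intro P hP
    rcases mem_insert.1 hP with hP | hP
    · exact ⟨x, hP ▸ hTc⟩
    · exact I.model.conn P hP
  · intro P hP Q hQ hPQ a ha b hb
    rcases mem_insert.1 hP with hP | hP <;> rcases mem_insert.1 hQ with hQ | hQ
    · exact absurd (hP.trans hQ.symm) hPQ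
    · exact fun hn => I.Bsep Q hQ b hb a (hTB (hP ▸ ha)) hn.symm
    · exact I.Bsep P hP a ha b (hTB (hQ ▸ hb))
    · exact I.model.sep P hP Q hQ hPQ a ha b hb
  · intro P Q
    by_cases hP : P = T <;> by_cases hQ : Q = T <;> simp [y', hP, hQ, I.model.symm P Q]
  · intro P hP Q hQ hPQ
    rcases mem_insert.1 hP with hP | hP <;> rcases mem_insert.1 hQ with hQ | hQ
    · exact absurd (hP.trans hQ.symm) hPQ
    · rw [hP, e1]
      exact ⟨u Q, hTu (mem_image_of_mem _ hQ), (hu Q hQ).2.symm⟩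
    · rw [hQ, e2 P hP]
      exact (hz P hP).2.1
    · rw [e3 P hP Q hQ]
      exact I.model.adj P hP Q hQ hPQ
  · intro P hP Q hQ R hR hPQ hRP hRQ a ha
    rcases mem_insert.1 hP with hP | hP <;> rcases mem_insert.1 hQ with hQ | hQ
    · exact absurd (hP.trans hQ.symm) hPQ
    · rw [hP, e1]
      exact (hz Q hQ).2.2.1 R ((mem_insert.1 hR).resolve_left (hP ▸ hRP)) hRQ a ha
    · rw [hQ, e2 P hP]
      exact (hz P hP).2.2.1 R ((mem_insert.1 hR).resolve_left (hQ ▸ hRQ)) hRP a ha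
    · rw [e3 P hP Q hQ]
      rcases mem_insert.1 hR with hR | hR
      · exact fun hn => I.By P hP Q hQ hPQ a (hTB (hR ▸ ha)) hn.symm
      · exact I.model.ysep P hP Q hQ R hR hPQ hRP hRQ a ha
  · intro P hP Q hQ R hR S hS hPQ hRS hRP hRQ
    rcases mem_insert.1 hP with hP | hP <;> rcases mem_insert.1 hQ with hQ | hQ
    · exact absurd (hP.trans hQ.symm) hPQ
    · have hR := (mem_insert.1 hR).resolve_left (hP ▸ hRP)
      rw [hP, e1]
      rcases mem_insert.1 hS with hS | hS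
      · rw [hS, e2 R hR]
        exact hzz R hR Q hQ hRQ
      · rw [e3 R hR S hS]
        exact (hz Q hQ).2.2.2 R hR S hS hRS
    · have hR := (mem_insert.1 hR).resolve_left (hQ ▸ hRQ)
      rw [hQ, e2 P hP]
      rcases mem_insert.1 hS with hS | hS
      · rw [hS, e2 R hR]
        exact hzz R hR P hP hRP
      · rw [e3 R hR S hS]
        exact (hz P hP).2.2.2 R hR S hS hRS
    · rw [e3 P hP Q hQ]
      rcases mem_insert.1 hR with hR | hR
      · have hS := (mem_insert.1 hS).resolve_left fun h => hRS (hR.trans h.symm)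
        rw [hR, e1]
        exact fun hn => (hz S hS).2.2.2 P hP Q hQ hPQ hn.symm
      · rcases mem_insert.1 hS with hS | hS
        · rw [hS, e2 R hR]
          exact fun hn => (hz R hR).2.2.2 P hP Q hQ hPQ hn.symm
        · rw [e3 R hR S hS]
          exact I.model.yy P hP Q hQ R hR S hS hPQ hRS hRP hRQ
  · intro P hP
    rcases mem_insert.1 hP with hP | hP
    · have h1 : #(X.image u) ≤ h := card_image_le.trans hX.le
      have h2 := Nat.mul_le_mul_right (r + 1) h1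
      rw [hP]
      omega
    · exact I.size P hP
  · intro P hP Q hQ hPQ
    rcases mem_insert.1 hP with hP | hP <;> rcases mem_insert.1 hQ with hQ | hQ
    · exact absurd (hP.trans hQ.symm) hPQ
    · rw [hP, e1]
      exact mem_union_right _ (mem_image_of_mem _ hQ)
    · rw [hQ, e2 P hP]
      exact mem_union_right _ (mem_image_of_mem _ hP)
    · rw [e3 P hP Q hQ]
      exact mem_union_left _ (I.yJ P hP Q hQ hPQ)
  · intro P hP a ha b hb
    rcases mem_insert.1 hP with hP | hP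
    · exact (mem_filter.1 hb).2.1 a (hP ▸ ha)
    · exact I.Bsep P hP a ha b (hB' hb)
  · intro P hP Q hQ hPQ b hb
    rcases mem_insert.1 hP with hP | hP <;> rcases mem_insert.1 hQ with hQ | hQ
    · exact absurd (hP.trans hQ.symm) hPQ
    · rw [hP, e1]
      exact (mem_filter.1 hb).2.2 Q hQ
    · rw [hQ, e2 P hP]
      exact (mem_filter.1 hb).2.2 P hP
    · rw [e3 P hP Q hQ]
      exact I.By P hP Q hQ hPQ b (hB' hb)
  · have := I.acc
    have h1 : #(J ∪ X.image z) ≤ #J + h :=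
      (card_union_le _ _).trans (Nat.add_le_add_left (card_image_le.trans hX.le) _)
    have h2 := Nat.mul_le_mul_left l h1
    have h3 := Nat.mul_le_mul_left (2 * h + 1) hcard
    rw [hins]
    nlinarith
  · rw [sum_empty]
    exact div_nonneg (sum_nonneg fun v _ => hw v) zero_le_two
  · exact fun v hv b hbB hadj => (hb v hv b hbB hadj).mono (subset_insert _ _) subset_union_left
  · intro v hv h1 _
    by_contra hcov
    refine h1 (mem_filter.2 ⟨hv, fun a ha hn => hcov (Or.inl ⟨T, mem_insert_self _ _, a, ha, hn⟩),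
      fun P hP hn => hcov (Or.inr ⟨z P, mem_union_right _ (mem_image_of_mem _ hP), hn⟩)⟩)

lemma step (hw : ∀ v, 0 ≤ w v) {h l s m : ℕ} {X : Finset (Finset V)}
    {y : Finset V → Finset V → V} {J B : Finset V} (I : Inv G h l s X y J B)
    (hb : ∀ v ∉ B, ∀ b ∈ B, G.Adj v b → Cov G X J v) (hX : #X < h) (hl : 1 ≤ l) (hlB : l ≤ #B)
    (hm : #B < 2 ^ m) (hs : l + h * (l * m + l * m + 1) ≤ s) : Next G w h l s X B := by
  classical
  obtain ⟨x, hx⟩ : B.Nonempty := card_pos.1 (by omega)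
  by_cases hr : B ⊆ ball G B x (l * m + l * m)
  · rcases greedy (G := G) x (Good G X y B) X with ⟨z, hz, hzz⟩ | ⟨P, hP, U, hU, hgood⟩
    · exact step_add hw I hb hX hl hlB hx hr hs hz hzz
    · exact step_drop hw I hb hP hU hgood
  · obtain ⟨x', hx', hx''⟩ := not_subset.1 hr
    have hd : Disjoint (ball G B x (l * m)) (ball G B x' (l * m)) :=
      disjoint_left.2 fun v h1 h2 => hx'' (mem_ball_add hx' _ _ v h1 h2)
    have h1 := sum_union (f := w) hd
    have h2 : ∑ v ∈ ball G B x (l * m) ∪ ball G B x' (l * m), w v ≤ ∑ v, w v :=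
      sum_le_sum_of_subset_of_nonneg (subset_univ _) fun v _ _ => hw v
    by_cases h3 : ∑ v ∈ ball G B x (l * m), w v ≤ (∑ v, w v) / 2
    · exact step_cut hw I hb hl hm hx h3
    · exact step_cut hw I hb hl hm hx' (by linarith)

lemma Inv.cover {h l s : ℕ} {X : Finset (Finset V)} {y : Finset V → Finset V → V}
    {J B : Finset V} (I : Inv G h l s X y J B) :
    ∃ C : Finset V, #C ≤ #J + h * s ∧ ∀ v, Cov G X J v → ∃ a ∈ C, Near G a v := by
  classical
  refine ⟨J ∪ X.biUnion id, (card_union_le _ _).trans (Nat.add_le_add_left ?_ _), ?_⟩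
  · exact (card_biUnion_le_card_mul _ _ _ I.size).trans (Nat.mul_le_mul_right _ I.card)
  · rintro v (⟨P, hP, a, ha, hn⟩ | ⟨a, ha, hn⟩)
    · exact ⟨a, mem_union_right _ (mem_biUnion.2 ⟨P, hP, ha⟩), hn⟩
    · exact ⟨a, mem_union_left _ ha, hn⟩

lemma main_ind (hw : ∀ v, 0 ≤ w v) {h l s m K : ℕ} (hl : 1 ≤ l) (hm : Fintype.card V < 2 ^ m)
    (hs : l + h * (l * m + l * m + 1) ≤ s)
    (hK : ∀ j, l * j ≤ (2 * h + 1) * Fintype.card V → j + h * s + l ≤ K)
    (hfree : ∀ X y, Model G X y → #X < h) (N : ℕ) :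
    ∀ (X : Finset (Finset V)) (y : Finset V → Finset V → V) (J B : Finset V),
      2 * #B + #X < N → Inv G h l s X y J B → (∀ v ∉ B, ∀ b ∈ B, G.Adj v b → Cov G X J v) →
      (∑ v, w v) / 2 < ∑ v ∈ B, w v → Sep G w K := by
  classical
  have hJ : ∀ {X y J B}, Inv G h l s X y J B → #J + h * s + l ≤ K := fun I => hK _ (by
    have := I.acc
    rw [mul_add] at this
    omega)
  have h0 : ∑ v ∈ (∅ : Finset V), w v ≤ (∑ v, w v) / 2 := by
    rw [sum_empty]
    exact div_nonneg (sum_nonneg fun v _ => hw v) zero_le_two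
  induction N with
  | zero => intro X y J B h; omega
  | succ N ih =>
    intro X y J B hN I hb hB
    by_cases hlB : l ≤ #B
    · obtain ⟨X', y', J', B', D, I', hlt, hsub, hD, hDB, h1, h2⟩ := step hw I hb
        (hfree X y I.model) hl hlB ((card_le_univ B).trans_lt hm) hs
      by_cases hB' : (∑ v, w v) / 2 < ∑ v ∈ B', w v
      · refine ih X' y' J' B' (by omega) I' (fun v hv b hb hadj => ?_) hB'
        by_cases hvB : v ∈ B
        · exact h2 v hvB hv fun hvD => hDB v hvD b hb hadj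
        · exact h1 v hvB b (hsub hb) hadj
      · obtain ⟨C, hC, hcov⟩ := I'.cover
        have := hJ I'
        exact finish hw (C := C) (by omega) hB (not_lt.1 hB') hD hDB
          (fun v hv b hb hadj => hcov v (h1 v hv b hb hadj))
          (fun v hv hv' hvD => hcov v (h2 v hv hv' hvD))
    · obtain ⟨C, hC, hcov⟩ := I.cover
      have := hJ I
      have h3 := card_union_le C B
      refine finish hw (C := C ∪ B) (by omega) hB h0 h0 (by simp) (fun v hv b hbB hadj => ?_)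
        (fun v hv _ _ => ⟨v, mem_union_right _ hv, near_self _⟩)
      obtain ⟨a, ha, hn⟩ := hcov v (hb v hv b hbB hadj)
      exact ⟨a, mem_union_left _ ha, hn⟩

theorem main (hw : ∀ v, 0 ≤ w v) {h l m K : ℕ} (hl : 1 ≤ l) (hm : Fintype.card V < 2 ^ m)
    (hK : ∀ j, l * j ≤ (2 * h + 1) * Fintype.card V →
      j + h * (l + h * (l * m + l * m + 1)) + l ≤ K)
    (hfree : ∀ X y, Model G X y → #X < h) : Sep G w K := by
  classical
  by_cases hB : (∑ v, w v) / 2 < ∑ v, w v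
  · obtain ⟨x, -⟩ : (univ : Finset V).Nonempty := by
      rw [nonempty_iff_ne_empty]
      intro h
      simp [h] at hB
    refine main_ind hw hl hm le_rfl hK hfree _ ∅ (fun _ _ => x) ∅ univ (Nat.lt_succ_self _)
      ⟨⟨by simp, by simp, fun _ _ => rfl, by simp, by simp, by simp⟩, by simp, by simp, by simp,
        by simp, by simp, by simp⟩ (by simp) hB
  · refine ⟨∅, ∅, by simp, by simp, fun T _ _ => ?_⟩
    exact (sum_le_sum_of_subset_of_nonneg (subset_univ _) fun v _ _ => hw v).trans (not_lt.1 hB)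

end Pool.Agent.Lib.MP_4aeae0_co
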